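import Mathlib

/-!
Real contact manifolds, Reeb chords and symmetric periodic Reeb orbits, on smooth manifolds
modelled on a real normed space `V`.
-/

open scoped Manifold ContDiff

namespace Pool.Agent.Lib.MP_8a71fe_gt

variable {V : Type} [NormedAddCommGroup V] [NormedSpace ℝ V]
  {M : Type} [TopologicalSpace M] [ChartedSpace V M]

/-- A 1-form: a continuous linear functional on each tangent space. -/
abbrev OneForm (V : Type) [NormedAddCommGroup V] [NormedSpace ℝ V] (M : Type) [TopologicalSpace M]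
    [ChartedSpace V M] : Type :=
  (x : M) → TangentSpace 𝓘(ℝ, V) x →L[ℝ] ℝ

/-- The value of a 1-form on a tangent vector. -/
noncomputable def evalForm (α : OneForm V M) (x : M) (v : TangentSpace 𝓘(ℝ, V) x) : ℝ := α x v

/-- The expression of the 1-form `α` in the preferred chart at `x`: the pull-back of `α` under
the inverse chart. -/
noncomputable def localForm (α : OneForm V M) (x : M) (y : V) : V →L[ℝ] ℝ :=
  (α ((extChartAt 𝓘(ℝ, V) x).symm y)).comp (mfderiv 𝓘(ℝ, V) 𝓘(ℝ, V) (extChartAt 𝓘(ℝ, V) x).symm y)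

/-- The derivative of the local expression at the point corresponding to `x`. -/
noncomputable def localDeriv (α : OneForm V M) (x : M) (a b : V) : ℝ :=
  fderiv ℝ (localForm α x) (extChartAt 𝓘(ℝ, V) x x) a b

/-- The image of a tangent vector at `x` in the preferred chart at `x`. -/
noncomputable def chartVec (x : M) (v : TangentSpace 𝓘(ℝ, V) x) : V :=
  mfderiv 𝓘(ℝ, V) 𝓘(ℝ, V) (extChartAt 𝓘(ℝ, V) x) x v

/-- The exterior derivative `dα` at `x`, evaluated on two tangent vectors. -/
noncomputable def extD (α : OneForm V M) (x : M) (v w : TangentSpace 𝓘(ℝ, V) x) : ℝ :=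
  localDeriv α x (chartVec x v) (chartVec x w) - localDeriv α x (chartVec x w) (chartVec x v)

/-- `α` is a contact form: it is smooth (as a function on the tangent bundle), nowhere zero, and
`dα` is non-degenerate on `ker α`. -/
def IsContactForm [IsManifold 𝓘(ℝ, V) ∞ M] (α : OneForm V M) : Prop :=
  ContMDiff 𝓘(ℝ, V).tangent 𝓘(ℝ, ℝ) ∞
      (fun p : TangentBundle 𝓘(ℝ, V) M => evalForm α p.proj p.snd) ∧
    ∀ x : M, (∃ v, evalForm α x v ≠ 0) ∧ ∀ v : TangentSpace 𝓘(ℝ, V) x, evalForm α x v = 0 →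
      (∀ w : TangentSpace 𝓘(ℝ, V) x, evalForm α x w = 0 → extD α x v w = 0) → v = 0

/-- `R` is the Reeb vector field of `α`. -/
def IsReebField (α : OneForm V M) (R : (x : M) → TangentSpace 𝓘(ℝ, V) x) : Prop :=
  ∀ x : M, evalForm α x (R x) = 1 ∧ ∀ w : TangentSpace 𝓘(ℝ, V) x, extD α x (R x) w = 0

/-- `ρ` is a smooth involution with `ρ^* α = -α`. -/
def IsAntiContactInvolution (α : OneForm V M) (ρ : M → M) : Prop :=
  ContMDiff 𝓘(ℝ, V) 𝓘(ℝ, V) ∞ ρ ∧ (∀ x, ρ (ρ x) = x) ∧
    ∀ (x : M) (v : TangentSpace 𝓘(ℝ, V) x),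
      evalForm α (ρ x) (mfderiv 𝓘(ℝ, V) 𝓘(ℝ, V) ρ x v) = -evalForm α x v

/-- `c` restricted to `[0, T]`, `T > 0`, is an integral curve of `R` with both end points in the
fixed point set of `ρ`. -/
def IsReebChord (R : (x : M) → TangentSpace 𝓘(ℝ, V) x) (ρ : M → M) (c : ℝ → M) (T : ℝ) : Prop :=
  0 < T ∧ IsMIntegralCurveOn c R (Set.Icc 0 T) ∧ ρ (c 0) = c 0 ∧ ρ (c T) = c T

/-- The closed orbit of period `2 T` obtained by doubling a chord. -/
noncomputable def doubledChord (ρ : M → M) (c : ℝ → M) (T : ℝ) (t : ℝ) : M :=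
  if t ≤ T then c t else ρ (c (2 * T - t))

/-- The set of images of symmetric periodic Reeb orbits; its elements are the geometrically
distinct symmetric periodic Reeb orbits. -/
def symmetricOrbits (R : (x : M) → TangentSpace 𝓘(ℝ, V) x) (ρ : M → M) : Set (Set M) :=
  {S | ∃ (c : ℝ → M) (T : ℝ), IsReebChord R ρ c T ∧ S = doubledChord ρ c T '' Set.Icc 0 (2 * T)}

/-- There is a closed connected real contact manifold modelled on `V` with exactly `k`
geometrically distinct symmetric periodic Reeb orbits. -/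
def ExistsRealContact (V : Type) [NormedAddCommGroup V] [NormedSpace ℝ V] (k : ℕ∞) : Prop :=
  ∃ (M : Type) (_ : TopologicalSpace M) (_ : ChartedSpace V M) (_ : IsManifold 𝓘(ℝ, V) ∞ M)
    (_ : T2Space M) (_ : CompactSpace M) (_ : ConnectedSpace M)
    (α : OneForm V M) (R : (x : M) → TangentSpace 𝓘(ℝ, V) x) (ρ : M → M),
    IsContactForm α ∧ IsReebField α R ∧ IsAntiContactInvolution α ρ ∧ (∃ x, ρ x = x) ∧
      (symmetricOrbits R ρ).encard = k

end Pool.Agent.Lib.MP_8a71fe_gt
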