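import Mathlib

/-!
A regular level set of a smooth map between finite-dimensional spaces is a smooth manifold whose
charts are restrictions of linear maps.
-/

open scoped Manifold ContDiff Topology
open Set Function

namespace Pool.Agent.Lib.MP_8a71fe_gt

variable {E F : Type} [NormedAddCommGroup E] [NormedSpace ℝ E] [FiniteDimensional ℝ E]
  [NormedAddCommGroup F] [NormedSpace ℝ F] [FiniteDimensional ℝ F]

lemma exists_complement (D : E →L[ℝ] F) (hD : Surjective D) (m : ℕ)
    (hm : Module.finrank ℝ E = m + Module.finrank ℝ F) :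
    ∃ L : E →L[ℝ] EuclideanSpace ℝ (Fin m), ∀ u, D u = 0 → L u = 0 → u = 0 := by
  have h1 := LinearMap.finrank_range_add_finrank_ker (D : E →ₗ[ℝ] F)
  have h2 : LinearMap.range (D : E →ₗ[ℝ] F) = ⊤ := LinearMap.range_eq_top.mpr hD
  rw [h2, finrank_top] at h1
  have h3 : Module.finrank ℝ (LinearMap.ker (D : E →ₗ[ℝ] F)) =
      Module.finrank ℝ (EuclideanSpace ℝ (Fin m)) := by
    simp only [finrank_euclideanSpace, Fintype.card_fin]
    omega
  obtain ⟨φ⟩ := FiniteDimensional.nonempty_linearEquiv_of_finrank_eq h3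
  obtain ⟨L, hL⟩ := LinearMap.exists_extend φ.toLinearMap
  refine ⟨LinearMap.toContinuousLinearMap L, fun u hu hLu => ?_⟩
  have h4 : φ ⟨u, hu⟩ = 0 := by
    have := LinearMap.congr_fun hL ⟨u, hu⟩
    simp only [LinearMap.coe_comp, Submodule.coe_subtype, comp_apply, LinearEquiv.coe_coe] at this
    rw [← this]
    exact hLu
  have := φ.map_eq_zero_iff.mp h4
  exact congrArg Subtype.val this

lemma exists_local_straightening (f : E → F) (hf : ContDiff ℝ ∞ f) (x : E)
    (hD : Surjective (fderiv ℝ f x)) (m : ℕ)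
    (hm : Module.finrank ℝ E = m + Module.finrank ℝ F) :
    ∃ (L : E →L[ℝ] EuclideanSpace ℝ (Fin m))
      (e : OpenPartialHomeomorph E (F × EuclideanSpace ℝ (Fin m))),
      (∀ u, fderiv ℝ f x u = 0 → L u = 0 → u = 0) ∧ x ∈ e.source ∧
      (∀ y, e y = (f y, L y)) ∧ ContDiffOn ℝ ∞ e.symm e.target := by
  obtain ⟨L, hL⟩ := exists_complement _ hD m hm
  have : CompleteSpace E := FiniteDimensional.complete ℝ E
  let Φ : E → F × EuclideanSpace ℝ (Fin m) := fun y => (f y, L y)
  have hΦ : ContDiff ℝ ∞ Φ := hf.prodMk L.contDiff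
  have hdiff : ∀ y, HasFDerivAt Φ ((fderiv ℝ f y).prod L) y := fun y =>
    ((hf.differentiable (by simp) y).hasFDerivAt).prodMk L.hasFDerivAt
  have hinj : Injective ((fderiv ℝ f x).prod L) := by
    rw [injective_iff_map_eq_zero]
    intro u hu
    exact hL u (congrArg Prod.fst hu) (congrArg Prod.snd hu)
  have hdim : Module.finrank ℝ E = Module.finrank ℝ (F × EuclideanSpace ℝ (Fin m)) := by
    simp only [Module.finrank_prod, finrank_euclideanSpace, Fintype.card_fin]
    omega
  let D : E ≃L[ℝ] F × EuclideanSpace ℝ (Fin m) :=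
    (LinearMap.linearEquivOfInjective
      (((fderiv ℝ f x).prod L : E →L[ℝ] F × EuclideanSpace ℝ (Fin m)) : E →ₗ[ℝ] _)
      hinj hdim).toContinuousLinearEquiv
  have hDeq : (D : E →L[ℝ] F × EuclideanSpace ℝ (Fin m)) = (fderiv ℝ f x).prod L := by
    ext u <;> rfl
  let U : Set E := {y | (fderiv ℝ Φ y).IsInvertible}
  have hU : IsOpen U := by
    have h1 : Continuous (fderiv ℝ Φ) := hΦ.continuous_fderiv (by simp)
    have h2 := (ContinuousLinearEquiv.isOpen (𝕜 := ℝ) (E := E)
      (F := F × EuclideanSpace ℝ (Fin m))).preimage h1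
    exact h2
  have hxU : x ∈ U := ⟨D, by rw [hDeq, (hdiff x).fderiv]⟩
  let e0 := hΦ.contDiffAt.toOpenPartialHomeomorph Φ (f' := D) (a := x)
    (by rw [hDeq]; exact hdiff x) (by simp)
  refine ⟨L, e0.restrOpen U hU, hL, ⟨?_, hxU⟩, fun y => rfl, ?_⟩
  · exact hΦ.contDiffAt.mem_toOpenPartialHomeomorph_source _ _
  · intro z hz
    have hsrc := (e0.restrOpen U hU).map_target hz
    obtain ⟨D', hD'⟩ := hsrc.2
    apply ContDiffAt.contDiffWithinAt
    apply (e0.restrOpen U hU).contDiffAt_symm (f₀' := D') hz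
    · rw [hD']
      exact (hΦ.differentiable (by simp) _).hasFDerivAt
    · exact hΦ.contDiffAt

/-- The chart of the level set defined by a local straightening. -/
noncomputable def sliceChart {m : ℕ} (f : E → F) (S : Set E) (hS : ∀ y, y ∈ S ↔ f y = 0) (x : S)
    (L : E →L[ℝ] EuclideanSpace ℝ (Fin m))
    (e : OpenPartialHomeomorph E (F × EuclideanSpace ℝ (Fin m))) (he : ∀ y, e y = (f y, L y)) :
    OpenPartialHomeomorph S (EuclideanSpace ℝ (Fin m)) := by
  classical
  have hmem : ∀ z, ((0 : F), z) ∈ e.target → e.symm (0, z) ∈ S := by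
    intro z hz
    rw [hS]
    have := e.right_inv hz
    rw [he] at this
    exact congrArg Prod.fst this
  exact
  { toFun := fun y => L y
    invFun := fun z => if h : ((0 : F), z) ∈ e.target then ⟨e.symm (0, z), hmem z h⟩ else x
    source := Subtype.val ⁻¹' e.source
    target := {z | ((0 : F), z) ∈ e.target}
    map_source' := by
      intro y hy
      have := e.map_source hy
      rwa [he, (hS y).mp y.2] at this
    map_target' := by
      intro z hz
      simp only [mem_ofPred_eq] at hz
      simp only [hz, dif_pos, mem_preimage]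
      exact e.map_target hz
    left_inv' := by
      intro y hy
      have h1 := e.map_source hy
      have h2 := e.left_inv hy
      rw [he, (hS y).mp y.2] at h1 h2
      simp only [h1, dif_pos]
      exact Subtype.ext h2
    right_inv' := by
      intro z hz
      simp only [mem_ofPred_eq] at hz
      simp only [hz, dif_pos]
      have := e.right_inv hz
      rw [he] at this
      exact congrArg Prod.snd this
    open_source := e.open_source.preimage continuous_subtype_val
    open_target := e.open_target.preimage (by fun_prop)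
    continuousOn_toFun := (L.continuous.comp continuous_subtype_val).continuousOn
    continuousOn_invFun := by
      rw [Topology.IsInducing.subtypeVal.continuousOn_iff]
      have h1 : ContinuousOn (fun z : EuclideanSpace ℝ (Fin m) => e.symm (0, z))
          {z | ((0 : F), z) ∈ e.target} :=
        e.continuousOn_symm.comp (by fun_prop) (fun z hz => hz)
      refine h1.congr (fun z hz => ?_)
      simp only [mem_ofPred_eq] at hz
      simp [hz] }

omit [FiniteDimensional ℝ E] [NormedSpace ℝ F] [FiniteDimensional ℝ F] in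
lemma sliceChart_symm_val {m : ℕ} (f : E → F) (S : Set E) (hS : ∀ y, y ∈ S ↔ f y = 0) (x : S)
    (L : E →L[ℝ] EuclideanSpace ℝ (Fin m))
    (e : OpenPartialHomeomorph E (F × EuclideanSpace ℝ (Fin m))) (he : ∀ y, e y = (f y, L y))
    (z : EuclideanSpace ℝ (Fin m)) (hz : z ∈ (sliceChart f S hS x L e he).target) :
    (((sliceChart f S hS x L e he).symm z : S) : E) = e.symm (0, z) := by
  have hz' : ((0 : F), z) ∈ e.target := hz
  simp [sliceChart, hz']

theorem exists_levelSet_manifold (f : E → F) (hf : ContDiff ℝ ∞ f) (S : Set E)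
    (hS : ∀ y, y ∈ S ↔ f y = 0) (hsurj : ∀ x ∈ S, Surjective (fderiv ℝ f x)) (m : ℕ)
    (hm : Module.finrank ℝ E = m + Module.finrank ℝ F) :
    ∃ _ : ChartedSpace (EuclideanSpace ℝ (Fin m)) S, IsManifold (𝓡 m) ∞ S ∧
      ContMDiff (𝓡 m) 𝓘(ℝ, E) ∞ (Subtype.val : S → E) ∧
      ∀ x : S, ∃ L : E →L[ℝ] EuclideanSpace ℝ (Fin m),
        (∀ y : S, extChartAt (𝓡 m) x y = L y) ∧ ∀ u, fderiv ℝ f x u = 0 → L u = 0 → u = 0 := by
  choose L e hL hx he hsm using
    fun x : S => exists_local_straightening f hf x (hsurj x x.2) m hm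
  let c : S → OpenPartialHomeomorph S (EuclideanSpace ℝ (Fin m)) :=
    fun x => sliceChart f S hS x (L x) (e x) (he x)
  have hc : ∀ x, ContDiffOn ℝ ∞ (fun z => (((c x).symm z : S) : E)) (c x).target := by
    intro x
    have h1 : ContDiffOn ℝ ∞ (fun z : EuclideanSpace ℝ (Fin m) => (e x).symm (0, z))
        (c x).target :=
      (hsm x).comp (contDiff_const.prodMk contDiff_id).contDiffOn (fun z hz => hz)
    exact h1.congr (fun z hz => sliceChart_symm_val f S hS x _ _ _ z hz)
  let cs : ChartedSpace (EuclideanSpace ℝ (Fin m)) S :=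
    { atlas := range c
      chartAt := c
      mem_chart_source := fun x => hx x
      chart_mem_atlas := fun x => ⟨x, rfl⟩ }
  have hM : IsManifold (𝓡 m) ∞ S := by
    apply isManifold_of_contDiffOn
    rintro _ _ ⟨x, rfl⟩ ⟨y, rfl⟩
    have h1 : ContDiffOn ℝ ∞ (fun z => L y (((c x).symm z : S) : E)) (c x).target :=
      (L y).contDiff.comp_contDiffOn (hc x)
    refine h1.mono ?_
    intro z hz
    exact hz.1.1
  refine ⟨cs, hM, ?_, fun x => ⟨L x, fun y => rfl, hL x⟩⟩
  intro x
  rw [contMDiffAt_iff]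
  refine ⟨continuous_subtype_val.continuousAt, ?_⟩
  have h1 := (hc x).contDiffAt ((c x).open_target.mem_nhds ((c x).map_source (hx x)))
  exact h1.contDiffWithinAt

end Pool.Agent.Lib.MP_8a71fe_gt
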