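import Pool.Agent.Lib.MP_8a71fe_gt.Defs
import Mathlib
import Pool.Agent.Lib.MP_8a71fe_gt.LevelSet

-- part Pool.Agent.Lib.MP_8a71fe_gt.Pullback
section

/-!
Pull-back of a linear 1-form under a smooth map to a vector space.
-/

open scoped Manifold ContDiff Topology
open Set Function

namespace Pool.Agent.Lib.MP_8a71fe_gt

variable {m : ℕ} {M : Type} [TopologicalSpace M] [ChartedSpace (EuclideanSpace ℝ (Fin m)) M]
  {E : Type} [NormedAddCommGroup E] [NormedSpace ℝ E]

/-- The differential of a vector valued map. -/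
noncomputable def dmap (m : ℕ) [ChartedSpace (EuclideanSpace ℝ (Fin m)) M] (ι : M → E) (x : M) :
    TangentSpace (𝓡 m) x →L[ℝ] E :=
  mfderiv (𝓡 m) 𝓘(ℝ, E) ι x

/-- The pull-back under `ι` of the 1-form `w ↦ A w` on `E`. -/
noncomputable def pullForm (m : ℕ) [ChartedSpace (EuclideanSpace ℝ (Fin m)) M]
    (A : E →L[ℝ] E →L[ℝ] ℝ) (ι : M → E) (x : M) : TangentSpace (𝓡 m) x →L[ℝ] ℝ :=
  (A (ι x)).comp (dmap m ι x)

lemma pullForm_apply (A : E →L[ℝ] E →L[ℝ] ℝ) (ι : M → E) (x : M) (v : TangentSpace (𝓡 m) x) :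
    pullForm m A ι x v = A (ι x) (dmap m ι x v) := rfl

variable [IsManifold (𝓡 m) ∞ M]

lemma contMDiff_pullForm (A : E →L[ℝ] E →L[ℝ] ℝ) {ι : M → E}
    (hι : ContMDiff (𝓡 m) 𝓘(ℝ, E) ∞ ι) :
    ContMDiff (𝓡 m).tangent 𝓘(ℝ, ℝ) ∞
      (fun p : TangentBundle (𝓡 m) M => pullForm m A ι p.proj p.snd) := by
  have h1 : ContMDiff (𝓡 m).tangent 𝓘(ℝ, E) ∞
      (fun p : TangentBundle (𝓡 m) M => ι p.proj) :=
    hι.comp (Bundle.contMDiff_proj (TangentSpace (𝓡 m)))
  have h2 : ContMDiff (𝓡 m).tangent 𝓘(ℝ, E) ∞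
      (fun p : TangentBundle (𝓡 m) M => dmap m ι p.proj p.snd) :=
    (contMDiff_snd_tangentBundle_modelSpace E 𝓘(ℝ, E)).comp
      (hι.contMDiff_tangentMap (m := ∞) (by simp))
  have h3 : ContDiff ℝ ∞ (fun q : E × E => A q.1 q.2) := by fun_prop
  exact h3.contMDiff.comp (h1.prodMk_space h2)

lemma contDiffOn_comp_symm {ι : M → E} (hι : ContMDiff (𝓡 m) 𝓘(ℝ, E) ∞ ι) (x : M) :
    ContDiffOn ℝ ∞ (ι ∘ (extChartAt (𝓡 m) x).symm) (extChartAt (𝓡 m) x).target := by
  rw [← contMDiffOn_iff_contDiffOn]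
  exact hι.comp_contMDiffOn (contMDiffOn_extChartAt_symm x)

omit [IsManifold (𝓡 m) ∞ M] in
lemma dmap_eq_fderiv {ι : M → E} (hι : ContMDiff (𝓡 m) 𝓘(ℝ, E) ∞ ι) (x : M) :
    dmap m ι x = fderiv ℝ (ι ∘ (extChartAt (𝓡 m) x).symm) (extChartAt (𝓡 m) x x) := by
  unfold dmap
  rw [(hι.mdifferentiableAt (by simp)).mfderiv]
  simp only [modelWithCornersSelf_coe, range_id, fderivWithin_univ]
  rfl

lemma extD_pullForm (A : E →L[ℝ] E →L[ℝ] ℝ) {ι : M → E} (hι : ContMDiff (𝓡 m) 𝓘(ℝ, E) ∞ ι)
    (x : M) (v w : TangentSpace (𝓡 m) x) :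
    extD (pullForm m A ι) x v w =
      A (dmap m ι x v) (dmap m ι x w) - A (dmap m ι x w) (dmap m ι x v) := by
  set c := extChartAt (𝓡 m) x with hc
  set g := ι ∘ c.symm with hg
  have hopen : IsOpen c.target := isOpen_extChartAt_target x
  have hnhds : c.target ∈ 𝓝 (c x) := hopen.mem_nhds (mem_extChartAt_target x)
  have hgs : ContDiffOn ℝ ∞ g c.target := contDiffOn_comp_symm hι x
  have hgx : ContDiffAt ℝ ∞ g (c x) := hgs.contDiffAt hnhds
  have hloc : localForm (pullForm m A ι) x =ᶠ[𝓝 (c x)] fun y => (A (g y)).comp (fderiv ℝ g y) := by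
    filter_upwards [hnhds] with y hy
    have h1 : MDifferentiableAt (𝓡 m) (𝓡 m) c.symm y :=
      ((contMDiffOn_extChartAt_symm (n := ∞) x).contMDiffAt
        (hopen.mem_nhds hy)).mdifferentiableAt (by simp)
    have h2 := mfderiv_comp y (hι.mdifferentiableAt (x := c.symm y) (by simp)) h1
    rw [mfderiv_eq_fderiv] at h2
    unfold localForm pullForm dmap
    rw [hg, h2]
    rfl
  have hd1 : HasFDerivAt g (fderiv ℝ g (c x)) (c x) :=
    (hgx.differentiableAt (by simp)).hasFDerivAt
  have hd2 : HasFDerivAt (fderiv ℝ g) (fderiv ℝ (fderiv ℝ g) (c x)) (c x) :=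
    ((hgx.fderiv_right (m := 1) (by norm_cast)).differentiableAt (by simp)).hasFDerivAt
  have hd3 := ((A.hasFDerivAt.comp (c x) hd1).clm_comp hd2).fderiv
  have hsym : IsSymmSndFDerivAt ℝ g (c x) := hgx.isSymmSndFDerivAt (by
    simp only [minSmoothness_of_isRCLikeNormedField]
    norm_cast)
  have key : ∀ v w : EuclideanSpace ℝ (Fin m),
      fderiv ℝ (localForm (pullForm m A ι) x) (c x) v w -
        fderiv ℝ (localForm (pullForm m A ι) x) (c x) w v =
      A (fderiv ℝ g (c x) v) (fderiv ℝ g (c x) w) -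
        A (fderiv ℝ g (c x) w) (fderiv ℝ g (c x) v) := by
    intro v w
    simp only [Function.comp_apply] at hd3
    rw [hloc.fderiv_eq, hd3]
    have := hsym.eq v w
    simp only [add_apply, ContinuousLinearMap.comp_apply,
      ContinuousLinearMap.compL_apply, ContinuousLinearMap.flip_apply]
    rw [this]
    ring
  unfold extD localDeriv chartVec
  rw [mfderiv_extChartAt_self, dmap_eq_fderiv hι x]
  exact key v w

omit [IsManifold (𝓡 m) ∞ M] in
lemma comp_dmap_eq {F : Type} [NormedAddCommGroup F] [NormedSpace ℝ F] {ι : M → E}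
    (hι : ContMDiff (𝓡 m) 𝓘(ℝ, E) ∞ ι) (x : M) {f : E → F} {D : E →L[ℝ] F}
    (hf : HasFDerivAt f D (ι x)) (v : TangentSpace (𝓡 m) x) :
    dmap m (f ∘ ι) x v = D (dmap m ι x v) := by
  have := (hf.hasMFDerivAt.comp x (hι.mdifferentiableAt (x := x) (by simp)).hasMFDerivAt).mfderiv
  unfold dmap
  rw [this]
  rfl

lemma linear_dmap {ι : M → E} (hι : ContMDiff (𝓡 m) 𝓘(ℝ, E) ∞ ι) (x : M)
    {L : E →L[ℝ] EuclideanSpace ℝ (Fin m)} (hL : ∀ y, extChartAt (𝓡 m) x y = L (ι y))
    (v : TangentSpace (𝓡 m) x) : L (dmap m ι x v) = v := by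
  rw [← comp_dmap_eq hι x L.hasFDerivAt v]
  have : L ∘ ι = extChartAt (𝓡 m) x := by
    ext1 y
    exact (hL y).symm
  unfold dmap
  rw [this, mfderiv_extChartAt_self]
  rfl

omit [IsManifold (𝓡 m) ∞ M] in
lemma fderiv_dmap_eq_zero {F : Type} [NormedAddCommGroup F] [NormedSpace ℝ F] {ι : M → E}
    (hι : ContMDiff (𝓡 m) 𝓘(ℝ, E) ∞ ι) (x : M) {f : E → F} {D : E →L[ℝ] F}
    (hf : HasFDerivAt f D (ι x)) (h0 : ∀ y, f (ι y) = 0) (v : TangentSpace (𝓡 m) x) :
    D (dmap m ι x v) = 0 := by
  rw [← comp_dmap_eq hι x hf v]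
  have : f ∘ ι = fun _ => 0 := funext h0
  unfold dmap
  rw [this, mfderiv_const]
  rfl

omit [IsManifold (𝓡 m) ∞ M] in
lemma contMDiff_of_comp {ι : M → E}
    (hL : ∀ x, ∃ L : E →L[ℝ] EuclideanSpace ℝ (Fin m), ∀ y, extChartAt (𝓡 m) x y = L (ι y))
    {ρ : M → M} (hc : Continuous ρ) (hρ : ContMDiff (𝓡 m) 𝓘(ℝ, E) ∞ (ι ∘ ρ)) :
    ContMDiff (𝓡 m) (𝓡 m) ∞ ρ := by
  intro x
  rw [contMDiffAt_iff_target]
  refine ⟨hc.continuousAt, ?_⟩
  obtain ⟨L, hL⟩ := hL (ρ x)
  have : extChartAt (𝓡 m) (ρ x) ∘ ρ = L ∘ (ι ∘ ρ) := by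
    ext1 y
    exact hL (ρ y)
  rw [this]
  exact L.contMDiff.contMDiffAt.comp x (hρ x)

omit [IsManifold (𝓡 m) ∞ M] in
lemma dmap_comp {ι : M → E} (hι : ContMDiff (𝓡 m) 𝓘(ℝ, E) ∞ ι) {ρ : M → M}
    (hρ : ContMDiff (𝓡 m) (𝓡 m) ∞ ρ) (x : M) (v : TangentSpace (𝓡 m) x) :
    dmap m ι (ρ x) (mfderiv (𝓡 m) (𝓡 m) ρ x v) = dmap m (ι ∘ ρ) x v := by
  unfold dmap
  rw [mfderiv_comp x (hι.mdifferentiableAt (by simp)) (hρ.mdifferentiableAt (by simp))]
  rfl

omit [IsManifold (𝓡 m) ∞ M] in
lemma hasDerivWithinAt_of_curve {ι : M → E} (hι : ContMDiff (𝓡 m) 𝓘(ℝ, E) ∞ ι) {c : ℝ → M}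
    {s : Set ℝ} {t : ℝ} {v : TangentSpace (𝓡 m) (c t)}
    (h : HasMFDerivWithinAt 𝓘(ℝ, ℝ) (𝓡 m) c s t ((1 : ℝ →L[ℝ] ℝ).smulRight v)) :
    HasDerivWithinAt (ι ∘ c) (dmap m ι (c t) v) s t := by
  have h1 := (hι.mdifferentiableAt (x := c t) (by simp)).hasMFDerivAt.comp_hasMFDerivWithinAt t h
  rw [hasMFDerivWithinAt_iff_hasFDerivWithinAt] at h1
  have h2 : HasFDerivWithinAt (ι ∘ c)
      ((dmap m ι (c t)).comp ((1 : ℝ →L[ℝ] ℝ).smulRight v)) s t := h1
  have h3 := h2.hasDerivWithinAt
  simpa using h3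

lemma curve_of_hasDerivWithinAt {ι : M → E} (hι : ContMDiff (𝓡 m) 𝓘(ℝ, E) ∞ ι)
    (hL : ∀ x, ∃ L : E →L[ℝ] EuclideanSpace ℝ (Fin m), ∀ y, extChartAt (𝓡 m) x y = L (ι y))
    {c : ℝ → M} {s : Set ℝ} {t : ℝ} (hc : ContinuousWithinAt c s t)
    {v : TangentSpace (𝓡 m) (c t)}
    (h : HasDerivWithinAt (ι ∘ c) (dmap m ι (c t) v) s t) :
    HasMFDerivWithinAt 𝓘(ℝ, ℝ) (𝓡 m) c s t ((1 : ℝ →L[ℝ] ℝ).smulRight v) := by
  refine ⟨hc, ?_⟩
  obtain ⟨L, hL⟩ := hL (c t)
  have h1 := L.hasFDerivAt.comp_hasDerivWithinAt t h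
  rw [hasDerivWithinAt_iff_hasFDerivWithinAt, linear_dmap hι (c t) hL v] at h1
  have e : writtenInExtChartAt 𝓘(ℝ, ℝ) (𝓡 m) t c = L ∘ ι ∘ c := by
    ext1 y
    simp only [writtenInExtChartAt, extChartAt_model_space_eq_id, PartialEquiv.refl_symm,
      PartialEquiv.refl_coe, comp_apply, id_eq]
    exact hL (c y)
  rw [e]
  exact h1.mono (fun y hy => hy.1)

end Pool.Agent.Lib.MP_8a71fe_gt
end

-- part Pool.Agent.Lib.MP_8a71fe_gt.Quadric
section

/-!
The intersection of a complex quadric cone with an ellipsoid: linear algebra, compactness and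
connectedness.
-/

open scoped ComplexConjugate Topology
open Set Function Complex

namespace Pool.Agent.Lib.MP_8a71fe_gt

variable {ι : Type} [Fintype ι] [DecidableEq ι]

/-- The symmetric bilinear map defining the quadric and the ellipsoid. -/
noncomputable def bil (s : ι → ι) (a : ι → ℝ) : (ι → ℂ) →L[ℝ] (ι → ℂ) →L[ℝ] ℂ × ℝ :=
  LinearMap.toContinuousBilinearMap (LinearMap.mk₂ ℝ
    (fun w v : ι → ℂ => ((∑ i, w (s i) * v i, ∑ i, a i * (conj (w i) * v i).re) : ℂ × ℝ))
    (by
      intro w w' v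
      simp only [Pi.add_apply, add_mul, map_add, add_re, mul_add, Finset.sum_add_distrib,
        Prod.mk_add_mk])
    (by
      intro c w v
      simp only [Pi.smul_apply, real_smul, map_mul, conj_ofReal, Prod.smul_mk, smul_eq_mul,
        Finset.mul_sum, mul_assoc, re_ofReal_mul, mul_left_comm c])
    (by
      intro w v v'
      simp only [Pi.add_apply, add_re, mul_add, Finset.sum_add_distrib, Prod.mk_add_mk])
    (by
      intro c w v
      simp only [Pi.smul_apply, real_smul, Prod.smul_mk, smul_eq_mul,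
        Finset.mul_sum, mul_left_comm _ (c : ℂ), re_ofReal_mul, mul_left_comm c]))

omit [DecidableEq ι] in
lemma bil_apply (s : ι → ι) (a : ι → ℝ) (w v : ι → ℂ) :
    bil s a w v = (∑ i, w (s i) * v i, ∑ i, a i * (conj (w i) * v i).re) := rfl

/-- The standard Liouville form. -/
noncomputable def liou : (ι → ℂ) →L[ℝ] (ι → ℂ) →L[ℝ] ℝ :=
  LinearMap.toContinuousBilinearMap (LinearMap.mk₂ ℝ
    (fun w v : ι → ℂ => ∑ i, (conj (w i) * v i).im)
    (by
      intro w w' v
      simp only [Pi.add_apply, add_mul, map_add, add_im, Finset.sum_add_distrib])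
    (by
      intro c w v
      simp only [Pi.smul_apply, real_smul, map_mul, conj_ofReal, smul_eq_mul,
        Finset.mul_sum, mul_assoc, im_ofReal_mul])
    (by
      intro w v v'
      simp only [Pi.add_apply, add_im, mul_add, Finset.sum_add_distrib])
    (by
      intro c w v
      simp only [Pi.smul_apply, real_smul, smul_eq_mul,
        Finset.mul_sum, mul_left_comm _ (c : ℂ), im_ofReal_mul]))

omit [DecidableEq ι] in
lemma liou_apply (w v : ι → ℂ) : liou w v = ∑ i, (conj (w i) * v i).im := rfl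

/-- The linear Reeb vector field. -/
noncomputable def rot (a : ι → ℝ) (w : ι → ℂ) : ι → ℂ := fun i => I * a i * w i

/-- Complex conjugation. -/
noncomputable def cj : (ι → ℂ) →L[ℝ] (ι → ℂ) :=
  ContinuousLinearMap.pi fun i => (conjCLE : ℂ →L[ℝ] ℂ).comp (ContinuousLinearMap.proj i)

omit [Fintype ι] [DecidableEq ι] in
@[simp] lemma cj_apply (w : ι → ℂ) (i : ι) : cj w i = conj (w i) := rfl

omit [DecidableEq ι] in
lemma bil_symm {s : ι → ι} (hs : Involutive s) (a : ι → ℝ) (w v : ι → ℂ) :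
    bil s a w v = bil s a v w := by
  rw [bil_apply, bil_apply]
  congr 1
  · rw [← Equiv.sum_comp hs.toPerm]
    simp [hs _, mul_comm]
  · apply Finset.sum_congr rfl
    intro i _
    simp [mul_comm]

omit [DecidableEq ι] in
lemma liou_antisymm (w v : ι → ℂ) : liou w v = -liou v w := by
  rw [liou_apply, liou_apply, ← Finset.sum_neg_distrib]
  apply Finset.sum_congr rfl
  intro i _
  simp
  ring

omit [DecidableEq ι] in
lemma liou_self (w : ι → ℂ) : liou w w = 0 := by
  have := liou_antisymm w w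
  linarith

omit [DecidableEq ι] in
lemma liou_rot_left (s : ι → ι) (a : ι → ℝ) (w u : ι → ℂ) :
    liou (rot a w) u = -(bil s a w u).2 := by
  rw [liou_apply, bil_apply, ← Finset.sum_neg_distrib]
  apply Finset.sum_congr rfl
  intro i _
  simp [rot]
  ring

omit [DecidableEq ι] in
lemma liou_I_smul (v : ι → ℂ) : liou v (I • v) = ∑ i, normSq (v i) := by
  rw [liou_apply]
  apply Finset.sum_congr rfl
  intro i _
  simp [normSq_apply]

omit [DecidableEq ι] in
lemma bil_self_snd (s : ι → ι) (a : ι → ℝ) (w : ι → ℂ) :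
    (bil s a w w).2 = ∑ i, a i * normSq (w i) := by
  rw [bil_apply]
  apply Finset.sum_congr rfl
  intro i _
  simp [normSq_apply]

omit [DecidableEq ι] in
lemma bil_smul_fst (s : ι → ι) (a : ι → ℝ) (w v : ι → ℂ) (z : ℂ) :
    (bil s a w (z • v)).1 = z * (bil s a w v).1 := by
  simp only [bil_apply, Pi.smul_apply, smul_eq_mul, Finset.mul_sum]
  apply Finset.sum_congr rfl
  intro i _
  ring

omit [DecidableEq ι] in
lemma bil_rot {s : ι → ι} (hs : Involutive s) {a : ι → ℝ} (ha : ∀ i, a i + a (s i) = 2)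
    {w : ι → ℂ} (hw : (bil s a w w).1 = 0) : bil s a w (rot a w) = 0 := by
  rw [bil_apply] at hw ⊢
  simp only at hw
  ext
  · simp only [rot, Prod.fst_zero]
    have h1 : ∑ i, w (s i) * (I * a i * w i) = ∑ i, w (s i) * (I * a (s i) * w i) := by
      rw [← Equiv.sum_comp hs.toPerm]
      apply Finset.sum_congr rfl
      intro i _
      simp only [Involutive.coe_toPerm, hs i]
      ring
    have h2 : ∑ i, w (s i) * (I * a i * w i) + ∑ i, w (s i) * (I * a (s i) * w i) =
        2 * I * ∑ i, w (s i) * w i := by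
      rw [← Finset.sum_add_distrib, Finset.mul_sum]
      apply Finset.sum_congr rfl
      intro i _
      have : (a i : ℂ) + a (s i) = 2 := by exact_mod_cast ha i
      linear_combination (w (s i) * I * w i) * this
    rw [← h1, hw] at h2
    linear_combination (1 / 2 : ℂ) * h2
  · simp only [rot, Prod.snd_zero]
    apply Finset.sum_eq_zero
    intro i _
    simp
    right
    ring

omit [DecidableEq ι] in
lemma bil_cj (s : ι → ι) (a : ι → ℝ) (w : ι → ℂ) :
    bil s a (cj w) (cj w) = (conj (bil s a w w).1, (bil s a w w).2) := by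
  ext
  · simp [bil_apply]
  · simp [bil_self_snd]

omit [DecidableEq ι] in
lemma liou_cj (w v : ι → ℂ) : liou (cj w) (cj v) = -liou w v := by
  rw [liou_apply, liou_apply, ← Finset.sum_neg_distrib]
  apply Finset.sum_congr rfl
  intro i _
  simp
  ring

omit [DecidableEq ι] in
lemma sum_normSq_ne_zero {w : ι → ℂ} (hw : w ≠ 0) : ∑ i, normSq (w i) ≠ 0 := by
  intro h
  rw [Finset.sum_eq_zero_iff_of_nonneg (fun i _ => normSq_nonneg _)] at h
  apply hw
  ext i
  simpa using h i (Finset.mem_univ i)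

omit [DecidableEq ι] in
lemma bil_surjective {s : ι → ι} (hs : Involutive s) (a : ι → ℝ) {w : ι → ℂ}
    (hw : bil s a w w = (0, 1)) : Surjective (bil s a w) := by
  rintro ⟨z, t⟩
  have hw0 : w ≠ 0 := by
    rintro rfl
    simpa using congrArg Prod.snd hw
  have hN := sum_normSq_ne_zero hw0
  set N : ℝ := ∑ i, normSq (w i) with hNdef
  let g : ι → ℂ := fun i => conj (w (s i))
  have hg : (bil s a w g).1 = N := by
    rw [bil_apply, hNdef, ← Equiv.sum_comp hs.toPerm]
    simp [g, hs _, mul_conj]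
  let u : ι → ℂ := (z / N) • g
  have hu : (bil s a w u).1 = z := by
    rw [bil_smul_fst, hg]
    have : (N : ℂ) ≠ 0 := by exact_mod_cast hN
    field_simp
  refine ⟨u + (t - (bil s a w u).2) • w, ?_⟩
  rw [map_add, ContinuousLinearMap.map_smul, hw]
  ext
  · simp [hu]
  · simp

omit [DecidableEq ι] in
lemma liou_nondegenerate {s : ι → ι} (hs : Involutive s) {a : ι → ℝ}
    (ha : ∀ i, a i + a (s i) = 2) {w : ι → ℂ} (hw : bil s a w w = (0, 1)) {v : ι → ℂ}
    (hv : bil s a w v = 0) (hv' : liou w v = 0)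
    (h : ∀ u, bil s a w u = 0 → liou w u = 0 → liou v u = 0) : v = 0 := by
  have hrot : bil s a w (rot a w) = 0 := bil_rot hs ha (by rw [hw])
  have h1 : liou w (rot a w) = 1 := by
    rw [liou_antisymm, liou_rot_left s, hw]
    simp
  have h2 := h (I • v - (bil s a w (I • v)).2 • w - liou w (I • v) • rot a w) ?_ ?_
  · by_contra hne
    apply sum_normSq_ne_zero hne
    rw [map_sub, map_sub, ContinuousLinearMap.map_smul, ContinuousLinearMap.map_smul,
      liou_I_smul, liou_antisymm v w, hv',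
      liou_antisymm v (rot a w), liou_rot_left s, hv] at h2
    simpa using h2
  · rw [map_sub, map_sub, ContinuousLinearMap.map_smul, ContinuousLinearMap.map_smul,
      hrot, hw]
    ext
    · simp [bil_smul_fst, hv]
    · simp
  · rw [map_sub, map_sub, ContinuousLinearMap.map_smul, ContinuousLinearMap.map_smul,
      h1, liou_self]
    simp

/-- The defining map of the link. -/
noncomputable def defMap (s : ι → ι) (a : ι → ℝ) (w : ι → ℂ) : ℂ × ℝ := bil s a w w - (0, 1)

omit [DecidableEq ι] in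
lemma contDiff_defMap (s : ι → ι) (a : ι → ℝ) : ContDiff ℝ (⊤ : ℕ∞) (defMap s a) := by
  unfold defMap
  fun_prop

omit [DecidableEq ι] in
lemma hasFDerivAt_defMap {s : ι → ι} (hs : Involutive s) (a : ι → ℝ) (w : ι → ℂ) :
    HasFDerivAt (defMap s a) ((2 : ℝ) • bil s a w) w := by
  have h := (((bil s a).hasFDerivAt (x := w)).clm_apply (hasFDerivAt_id w)).sub_const (0, 1)
  have e : (2 : ℝ) • bil s a w =
      (bil s a w).comp (ContinuousLinearMap.id ℝ _) + (bil s a).flip (id w) := by
    ext1 v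
    simp only [smul_apply, add_apply, ContinuousLinearMap.comp_apply,
      ContinuousLinearMap.id_apply, ContinuousLinearMap.flip_apply, id_eq, bil_symm hs a v w,
      two_smul]
  rw [e]
  exact h

/-- The link: the intersection of the quadric cone with the ellipsoid. -/
def link (s : ι → ι) (a : ι → ℝ) : Set (ι → ℂ) := {w | bil s a w w = (0, 1)}

omit [DecidableEq ι] in
lemma mem_link_iff (s : ι → ι) (a : ι → ℝ) (w : ι → ℂ) : w ∈ link s a ↔ defMap s a w = 0 := by
  simp [link, defMap, sub_eq_zero]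

omit [DecidableEq ι] in
lemma isCompact_link (s : ι → ι) {a : ι → ℝ} (ha : ∀ i, 1 / 2 ≤ a i) : IsCompact (link s a) := by
  apply Metric.isCompact_of_isClosed_isBounded
  · exact isClosed_eq (by fun_prop) continuous_const
  · apply (Metric.isBounded_closedBall (x := (0 : ι → ℂ)) (r := 2)).subset
    intro w hw
    rw [mem_closedBall_zero_iff, pi_norm_le_iff_of_nonneg (by norm_num)]
    intro i
    have h1 : ∑ j, a j * normSq (w j) = 1 := by
      rw [← bil_self_snd s, hw]
    have h2 : a i * normSq (w i) ≤ ∑ j, a j * normSq (w j) :=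
      Finset.single_le_sum (f := fun j => a j * normSq (w j))
        (fun j _ => mul_nonneg (by linarith [ha j]) (normSq_nonneg _)) (Finset.mem_univ i)
    have h3 : normSq (w i) ≤ 2 := by nlinarith [ha i, normSq_nonneg (w i)]
    rw [normSq_eq_norm_sq] at h3
    nlinarith [norm_nonneg (w i)]

/-- The punctured quadric cone. -/
def cone (p q : ι) : Set (ι → ℂ) := {w | ∑ i, w (Equiv.swap p q i) * w i = 0 ∧ w ≠ 0}

lemma cone_comm (p q : ι) : cone p q = cone q p := by
  simp only [cone, Equiv.swap_comm]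

lemma quadric_eq {p q : ι} (hpq : p ≠ q) (w : ι → ℂ) :
    ∑ i, w (Equiv.swap p q i) * w i =
      2 * w p * w q + ∑ i ∈ (Finset.univ.erase p).erase q, w i ^ 2 := by
  rw [← Finset.add_sum_erase _ _ (Finset.mem_univ p),
    ← Finset.add_sum_erase _ _ (Finset.mem_erase.mpr ⟨hpq.symm, Finset.mem_univ q⟩)]
  have : ∑ i ∈ (Finset.univ.erase p).erase q, w (Equiv.swap p q i) * w i =
      ∑ i ∈ (Finset.univ.erase p).erase q, w i ^ 2 := by
    apply Finset.sum_congr rfl
    intro i hi
    simp only [Finset.mem_erase] at hi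
    rw [Equiv.swap_apply_of_ne_of_ne hi.2.1 hi.1, pow_two]
  rw [this]
  simp only [Equiv.swap_apply_left, Equiv.swap_apply_right]
  ring

lemma single_mem_cone {p q : ι} (hpq : p ≠ q) {z : ℂ} (hz : z ≠ 0) :
    (Pi.single p z : ι → ℂ) ∈ cone p q := by
  refine ⟨?_, fun h => hz (by simpa using congrFun h p)⟩
  rw [quadric_eq hpq, Finset.sum_eq_zero]
  · simp [hpq.symm]
  · intro i hi
    simp only [Finset.mem_erase] at hi
    simp [hi.2.1]

lemma joined_single {p q : ι} (hpq : p ≠ q) {w : ι → ℂ} (hw : w ∈ cone p q) (hp : w p ≠ 0) :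
    JoinedIn (cone p q) (Pi.single p 1) w := by
  have h1 : JoinedIn (cone p q) (Pi.single p (w p)) w := by
    apply JoinedIn.ofLine (f := fun t : ℝ => fun i =>
      (if i = p then 1 else if i = q then (t : ℂ) ^ 2 else t) * w i)
    · apply Continuous.continuousOn
      apply continuous_pi
      intro i
      split_ifs <;> fun_prop
    · ext i
      by_cases h : i = p
      · simp [h]
      · simp [h]
    · ext i
      simp
    · rintro _ ⟨t, _, rfl⟩
      refine ⟨?_, fun h => hp (by simpa using congrFun h p)⟩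
      have h0 := hw.1
      rw [quadric_eq hpq] at h0
      refine (quadric_eq hpq (fun i =>
        (if i = p then 1 else if i = q then (t : ℂ) ^ 2 else t) * w i)).trans ?_
      have : ∑ i ∈ (Finset.univ.erase p).erase q,
          ((if i = p then 1 else if i = q then (t : ℂ) ^ 2 else t) * w i) ^ 2 =
          (t : ℂ) ^ 2 * ∑ i ∈ (Finset.univ.erase p).erase q, w i ^ 2 := by
        rw [Finset.mul_sum]
        apply Finset.sum_congr rfl
        intro i hi
        simp only [Finset.mem_erase] at hi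
        simp [hi.1, hi.2.1, mul_pow]
      rw [this]
      simp only [if_true, hpq.symm, if_false]
      linear_combination (t : ℂ) ^ 2 * h0
  have h2 : IsPathConnected ({0}ᶜ : Set ℂ) :=
    isPathConnected_compl_singleton_of_one_lt_rank (by simp) 0
  have h3 := h2.image (f := fun z : ℂ => (Pi.single p z : ι → ℂ)) 
    (continuous_single (A := fun _ : ι => ℂ) p)
  have h4 := h3.joinedIn (Pi.single p 1) ⟨1, by simp, rfl⟩ (Pi.single p (w p)) ⟨w p, hp, rfl⟩
  refine (h4.mono ?_).trans h1
  rintro _ ⟨z, hz, rfl⟩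
  exact single_mem_cone hpq hz

lemma isPathConnected_cone {p q r : ι} (hpq : p ≠ q) (hrp : r ≠ p) (hrq : r ≠ q) :
    IsPathConnected (cone p q) := by
  refine ⟨Pi.single p 1, single_mem_cone hpq one_ne_zero, fun w hw => ?_⟩
  by_cases hp : w p = 0
  · by_cases hq : w q = 0
    · have h1 : ∀ t : ℝ, w + (t : ℂ) • (Pi.single p 1 : ι → ℂ) ∈ cone p q := by
        intro t
        constructor
        · have h0 := hw.1
          rw [quadric_eq hpq] at h0 ⊢
          have : ∑ i ∈ (Finset.univ.erase p).erase q,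
              (w + (t : ℂ) • (Pi.single p 1 : ι → ℂ)) i ^ 2 =
              ∑ i ∈ (Finset.univ.erase p).erase q, w i ^ 2 := by
            apply Finset.sum_congr rfl
            intro i hi
            simp only [Finset.mem_erase] at hi
            simp [hi.2.1]
          rw [this]
          simpa [hq, hpq.symm] using h0
        · intro h
          apply hw.2
          ext i
          by_cases hi : i = p
          · rw [hi, hp]; rfl
          · simpa [hi] using congrFun h i
      have h2 : JoinedIn (cone p q) w (w + ((1 : ℝ) : ℂ) • (Pi.single p 1 : ι → ℂ)) := by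
        apply JoinedIn.ofLine (f := fun t : ℝ => w + (t : ℂ) • (Pi.single p 1 : ι → ℂ))
        · fun_prop
        · simp
        · rfl
        · rintro _ ⟨t, _, rfl⟩
          exact h1 t
      exact (joined_single hpq (h1 1) (by simp [hp])).trans h2.symm
    · let u : ι → ℂ := fun i => if i = p then 1 else if i = q then 2 else if i = r then 2 * I else 0
      have hu : u ∈ cone p q := by
        refine ⟨?_, fun h => by simpa [u] using congrFun h p⟩
        rw [quadric_eq hpq, Finset.sum_eq_single r]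
        · simp [u, hpq.symm, hrp, hrq, mul_pow]
          norm_num
        · intro i hi hir
          simp only [Finset.mem_erase] at hi
          simp [u, hi.1, hi.2.1, hir]
        · intro h
          simp [hrp, hrq] at h
      have h1 := joined_single hpq hu (by simp [u])
      have h2 := joined_single hpq.symm (cone_comm p q ▸ hu) (by simp [u, hpq.symm])
      have h3 := joined_single hpq.symm (cone_comm p q ▸ hw) hq
      rw [cone_comm q p] at h2 h3
      exact (h1.trans h2.symm).trans h3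
  · exact joined_single hpq hw hp

lemma isConnected_link {p q r : ι} (hpq : p ≠ q) (hrp : r ≠ p) (hrq : r ≠ q) {a : ι → ℝ}
    (ha : ∀ i, 0 < a i) : IsConnected (link (Equiv.swap p q) a) := by
  set s := Equiv.swap p q with hs
  have hpos : ∀ w : ι → ℂ, w ≠ 0 → 0 < (bil s a w w).2 := by
    intro w hw
    rw [bil_self_snd]
    obtain ⟨i, hi⟩ := Function.ne_iff.mp hw
    exact Finset.sum_pos' (fun j _ => mul_nonneg (ha j).le (normSq_nonneg _))
      ⟨i, Finset.mem_univ i, mul_pos (ha i) (normSq_pos.mpr hi)⟩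
  have h1 := (isPathConnected_cone hpq hrp hrq).isConnected.image
    (fun w => (√(bil s a w w).2)⁻¹ • w) (by
      refine ContinuousOn.smul (f := fun w => (√(bil s a w w).2)⁻¹) (g := fun w => w) ?_
        continuousOn_id
      apply ContinuousOn.inv₀ (by fun_prop)
      intro w hw
      exact (Real.sqrt_pos.mpr (hpos w hw.2)).ne')
  convert h1 using 1
  ext w
  constructor
  · intro hw
    have hw' : bil s a w w = (0, 1) := hw
    refine ⟨w, ⟨congrArg Prod.fst hw', ?_⟩, by simp [hw']⟩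
    rintro rfl
    simpa using congrArg Prod.snd hw'
  · rintro ⟨u, hu, rfl⟩
    have h0 := hpos u hu.2
    have h2 : (bil s a u u).1 = 0 := hu.1
    simp only [link, mem_ofPred_eq, map_smul, smul_apply]
    ext
    · simp [h2]
    · simp only [Prod.smul_snd, smul_eq_mul]
      have h3 := Real.mul_self_sqrt h0.le
      have h4 := (Real.sqrt_pos.mpr h0).ne'
      field_simp
      rw [pow_two, h3]

end Pool.Agent.Lib.MP_8a71fe_gt
end

-- part Pool.Agent.Lib.MP_8a71fe_gt.Flow
section

/-!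
The linear Reeb flow and its chords with real end points.
-/

open scoped ComplexConjugate Topology
open Set Function Complex

namespace Pool.Agent.Lib.MP_8a71fe_gt

variable {ι : Type}

/-- The linear flow. -/
noncomputable def flow (a : ι → ℝ) (t : ℝ) (w : ι → ℂ) : ι → ℂ :=
  fun i => exp ((a i * t : ℝ) * I) * w i

lemma hasDerivAt_exp_mul (b : ℝ) (t : ℝ) :
    HasDerivAt (fun t : ℝ => exp ((b * t : ℝ) * I)) (exp ((b * t : ℝ) * I) * (b * I)) t := by
  have h1 : HasDerivAt (fun t : ℝ => ((b * t : ℝ) : ℂ) * I) (b * I) t := by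
    have := ((hasDerivAt_id t).const_mul b).ofReal_comp.mul_const I
    simpa using this
  exact h1.cexp

lemma hasDerivAt_flow [Fintype ι] (a : ι → ℝ) (w : ι → ℂ) (t : ℝ) :
    HasDerivAt (fun t => flow a t w) (rot a (flow a t w)) t := by
  rw [hasDerivAt_pi]
  intro i
  have := (hasDerivAt_exp_mul (a i) t).mul_const (w i)
  refine this.congr_deriv ?_
  simp only [rot, flow]
  ring

lemma eq_flow_of_ode [Fintype ι] (a : ι → ℝ) {γ : ℝ → ι → ℂ} {T : ℝ}
    (h : ∀ t ∈ Icc 0 T, HasDerivWithinAt γ (rot a (γ t)) (Icc 0 T) t) :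
    ∀ t ∈ Icc 0 T, γ t = flow a t (γ 0) := by
  intro t ht
  ext i
  have h1 : ∀ u ∈ Icc 0 T, HasDerivWithinAt (fun u : ℝ => exp ((-a i * u : ℝ) * I) * γ u i) 0
      (Icc 0 T) u := by
    intro u hu
    have h2 := (hasDerivWithinAt_pi.mp (h u hu)) i
    have h3 := (hasDerivAt_exp_mul (-a i) u).hasDerivWithinAt.mul h2
    refine h3.congr_deriv ?_
    simp only [rot]
    push_cast
    ring
  have h2 := constant_of_has_deriv_right_zero (f := fun u : ℝ => exp ((-a i * u : ℝ) * I) * γ u i)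
    (fun u hu => (h1 u hu).continuousWithinAt)
    (fun u hu => (h1 u (Ico_subset_Icc_self hu)).mono_of_mem_nhdsWithin
      (Icc_mem_nhdsGE_of_mem hu)) t ht
  simp only [mul_zero, ofReal_zero, zero_mul, exp_zero, one_mul] at h2
  simp only [flow]
  rw [← h2, ← mul_assoc, ← exp_add]
  have : ((a i * t : ℝ) : ℂ) * I + ((-a i * t : ℝ) : ℂ) * I = 0 := by push_cast; ring
  rw [this, exp_zero, one_mul]

lemma sin_eq_zero_of_real {b : ℝ} {z : ℂ} (hz : z ≠ 0) (h0 : conj z = z)
    (h : conj (exp (b * I) * z) = exp (b * I) * z) : Real.sin b = 0 := by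
  rw [conj_eq_iff_im] at h0 h
  rw [mul_im, h0, exp_ofReal_mul_I_im] at h
  simp only [mul_zero, zero_add, mul_eq_zero] at h
  rcases h with h | h
  · exact h
  · exact absurd (Complex.ext h h0) hz

/-- The weights of the ellipsoid. -/
def wt [DecidableEq ι] (ε : ℝ) (p q : ι) (i : ι) : ℝ :=
  if i = p then 1 + ε else if i = q then 1 - ε else 1

lemma wt_add [DecidableEq ι] (ε : ℝ) {p q : ι} (hpq : p ≠ q) (i : ι) :
    wt ε p q i + wt ε p q (Equiv.swap p q i) = 2 := by
  by_cases h1 : i = p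
  · subst h1
    simp [wt, hpq.symm]
    ring
  · by_cases h2 : i = q
    · subst h2
      simp [wt, h1]
      ring
    · rw [Equiv.swap_apply_of_ne_of_ne h1 h2]
      simp [wt, h1, h2]
      ring

lemma half_le_wt [DecidableEq ι] {ε : ℝ} (h0 : 0 ≤ ε) (h1 : ε ≤ 1 / 2) (p q i : ι) :
    1 / 2 ≤ wt ε p q i := by
  unfold wt
  split_ifs <;> linarith

lemma support_of_chord [Fintype ι] [DecidableEq ι] {ε : ℝ} (hε : Irrational ε) {p q : ι}
    (hpq : p ≠ q) {w : ι → ℂ} (hw : w ∈ link (Equiv.swap p q) (wt ε p q)) (h0 : cj w = w) {T : ℝ}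
    (hT : 0 < T) (h1 : cj (flow (wt ε p q) T w) = flow (wt ε p q) T w) :
    (∀ i ≠ p, w i = 0) ∨ (∀ i ≠ q, w i = 0) := by
  have hq : ∑ i, w (Equiv.swap p q i) * w i = 0 := congrArg Prod.fst hw
  rw [quadric_eq hpq] at hq
  have hsin : ∀ i, w i ≠ 0 → Real.sin (wt ε p q i * T) = 0 := fun i hi =>
    sin_eq_zero_of_real hi (congrFun h0 i) (congrFun h1 i)
  have hother : ∀ i, i ≠ p → i ≠ q → w i = 0 := by
    by_contra hcon
    push Not at hcon
    obtain ⟨j, hjp, hjq, hj⟩ := hcon
    have hp : w p ≠ 0 := by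
      intro hp
      rw [hp] at hq
      simp only [mul_zero, zero_mul, zero_add] at hq
      have h2 : ∑ i ∈ (Finset.univ.erase p).erase q, (w i).re ^ 2 = 0 := by
        have := congrArg Complex.re hq
        rw [re_sum] at this
        rw [← zero_re, ← this]
        apply Finset.sum_congr rfl
        intro i _
        have him : (w i).im = 0 := conj_eq_iff_im.mp (congrFun h0 i)
        simp [pow_two, him]
      rw [Finset.sum_eq_zero_iff_of_nonneg (fun i _ => sq_nonneg _)] at h2
      have h3 := h2 j (by simp [hjp, hjq])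
      apply hj
      exact Complex.ext (by simpa using h3) (conj_eq_iff_im.mp (congrFun h0 j))
    obtain ⟨k, hk⟩ := Real.sin_eq_zero_iff.mp (hsin j hj)
    obtain ⟨l, hl⟩ := Real.sin_eq_zero_iff.mp (hsin p hp)
    simp only [wt, hjp, hjq, if_false, one_mul, if_true] at hk hl
    have hk0 : (k : ℝ) ≠ 0 := by
      intro h
      rw [h] at hk
      linarith
    apply hε
    refine ⟨((l - k : ℤ) : ℚ) / (k : ℚ), ?_⟩
    push_cast
    rw [div_eq_iff hk0]
    apply mul_right_cancel₀ Real.pi_ne_zero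
    rw [← hk] at hl
    linear_combination hl
  rw [Finset.sum_eq_zero (fun i hi => by
    simp only [Finset.mem_erase] at hi
    rw [hother i hi.2.1 hi.1]
    simp)] at hq
  simp only [add_zero, mul_eq_zero, OfNat.ofNat_ne_zero, false_or] at hq
  rcases hq with h | h
  · right
    intro i hi
    by_cases hip : i = p
    · rw [hip, h]
    · exact hother i hip hi
  · left
    intro i hi
    by_cases hiq : i = q
    · rw [hiq, h]
    · exact hother i hi hiq

/-- The circle in the `j`-th coordinate axis. -/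
def circ (a : ι → ℝ) (j : ι) : Set (ι → ℂ) :=
  {w | (∀ i ≠ j, w i = 0) ∧ a j * normSq (w j) = 1}

lemma mem_link_iff_of_support [Fintype ι] [DecidableEq ι] {s : ι → ι} {a : ι → ℝ} {j : ι}
    (hj : s j ≠ j) {w : ι → ℂ} (hw : ∀ i ≠ j, w i = 0) : w ∈ link s a ↔ w ∈ circ a j := by
  have h1 : (bil s a w w).1 = 0 := by
    rw [bil_apply]
    apply Finset.sum_eq_zero
    intro i _
    by_cases hi : i = j
    · rw [hi, hw _ hj, zero_mul]
    · rw [hw i hi, mul_zero]
  have h2 : (bil s a w w).2 = a j * normSq (w j) := by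
    rw [bil_self_snd, Finset.sum_eq_single j]
    · intro i _ hi
      simp [hw i hi]
    · simp
  simp only [link, circ, mem_ofPred_eq, Prod.ext_iff, h1, h2, true_and]
  exact ⟨fun h => ⟨hw, h⟩, fun h => h.2⟩

lemma flow_mem_circ {a : ι → ℝ} {j : ι} {w : ι → ℂ} (hw : w ∈ circ a j) (t : ℝ) :
    flow a t w ∈ circ a j := by
  refine ⟨fun i hi => by simp [flow, hw.1 i hi], ?_⟩
  rw [← hw.2]
  simp only [flow, map_mul, normSq_eq_norm_sq (exp _), norm_exp_ofReal_mul_I]
  ring

lemma ne_zero_of_mem_circ {a : ι → ℝ} {j : ι} {w : ι → ℂ} (hw : w ∈ circ a j) : w j ≠ 0 := by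
  intro h
  have := hw.2
  simp [h] at this

lemma cj_flow_reflect {a : ι → ℝ} {j : ι} {w : ι → ℂ} (hw : w ∈ circ a j) (h0 : cj w = w) {T : ℝ}
    (h1 : cj (flow a T w) = flow a T w) (t : ℝ) : cj (flow a (2 * T - t) w) = flow a t w := by
  ext i
  by_cases hi : i = j
  · subst hi
    have h2 := congrFun h1 i
    have h3 := congrFun h0 i
    simp only [cj_apply, flow, map_mul, h3, ← exp_conj, conj_ofReal, conj_I] at h2 h3 ⊢
    have e1 : exp ((a i * (2 * T - t) : ℝ) * -I) =
        exp ((a i * t : ℝ) * I) * exp ((a i * T : ℝ) * -I) * exp ((a i * T : ℝ) * -I) := by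
      rw [← exp_add, ← exp_add]
      congr 1
      push_cast
      ring
    have e2 : exp ((a i * T : ℝ) * -I) * exp ((a i * T : ℝ) * I) = 1 := by
      rw [← exp_add]
      simp
    rw [e1, mul_assoc, h2, mul_assoc, ← mul_assoc (exp _) (exp _) (w i), e2, one_mul]
  · simp [flow, hw.1 i hi]

lemma image_flow_eq_circ {a : ι → ℝ} {j : ι} (ha : 0 < a j) {w : ι → ℂ} (hw : w ∈ circ a j)
    (h0 : cj w = w) {T : ℝ} (hT : 0 < T) (h1 : cj (flow a T w) = flow a T w) :
    (fun t => flow a t w) '' Icc 0 (2 * T) = circ a j := by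
  apply Subset.antisymm
  · rintro _ ⟨t, _, rfl⟩
    exact flow_mem_circ hw t
  · intro y hy
    have hwj := ne_zero_of_mem_circ hw
    have hsin := sin_eq_zero_of_real hwj (congrFun h0 j) (congrFun h1 j)
    have hpi : Real.pi ≤ a j * T := by
      by_contra hlt
      push Not at hlt
      exact (Real.sin_pos_of_pos_of_lt_pi (mul_pos ha hT) hlt).ne' hsin
    have hn : ‖y j / w j‖ = 1 := by
      have h2 : normSq (y j) = normSq (w j) := mul_left_cancel₀ ha.ne' (hy.2.trans hw.2.symm)
      rw [norm_div, div_eq_one_iff_eq (norm_ne_zero_iff.mpr hwj), Complex.norm_def,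
        Complex.norm_def, h2]
    obtain ⟨θ, hθ0, hθ1, hθ⟩ : ∃ θ : ℝ, 0 ≤ θ ∧ θ ≤ 2 * Real.pi ∧ exp (θ * I) = y j / w j := by
      have h3 := norm_mul_exp_arg_mul_I (y j / w j)
      rw [hn] at h3
      simp only [ofReal_one, one_mul] at h3
      have h4 := arg_le_pi (y j / w j)
      have h5 := neg_pi_lt_arg (y j / w j)
      have h6 := Real.pi_pos
      by_cases h7 : 0 ≤ arg (y j / w j)
      · exact ⟨_, h7, by linarith, h3⟩
      · refine ⟨arg (y j / w j) + 2 * Real.pi, by linarith, by linarith, ?_⟩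
        push_cast
        rw [add_mul, exp_add, exp_two_pi_mul_I, mul_one, h3]
    refine ⟨θ / a j, ⟨div_nonneg hθ0 ha.le, ?_⟩, ?_⟩
    · rw [div_le_iff₀ ha]
      nlinarith
    · ext i
      by_cases hi : i = j
      · subst hi
        simp only [flow]
        rw [mul_div_cancel₀ _ ha.ne', hθ]
        field_simp
      · simp [flow, hw.1 i hi, hy.1 i hi]

/-- A real point on the circle, and the half period. -/
lemma exists_chord [DecidableEq ι] {a : ι → ℝ} {j : ι} (ha : 0 < a j) :
    ∃ w ∈ circ a j, cj w = w ∧ ∃ T : ℝ, 0 < T ∧ cj (flow a T w) = flow a T w := by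
  refine ⟨Pi.single j ((√(a j))⁻¹ : ℝ), ⟨fun i hi => by simp [hi], ?_⟩, ?_, Real.pi / a j,
    div_pos Real.pi_pos ha, ?_⟩
  · simp only [Pi.single_eq_same, normSq_ofReal]
    rw [← mul_inv, Real.mul_self_sqrt ha.le, mul_inv_cancel₀ ha.ne']
  · ext i
    by_cases hi : i = j
    · subst hi
      simp
    · simp [hi]
  · ext i
    by_cases hi : i = j
    · subst hi
      simp only [cj_apply, flow, Pi.single_eq_same]
      rw [mul_div_cancel₀ _ ha.ne', exp_pi_mul_I]
      simp
    · simp [flow, hi]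

end Pool.Agent.Lib.MP_8a71fe_gt
end

-- part Pool.Agent.Lib.MP_8a71fe_gt.Main
section

/-!
The link of a quadric cone in an irrational ellipsoid is a real contact manifold with exactly two
symmetric periodic Reeb orbits.
-/

open scoped Manifold ContDiff Topology
open Set Function

namespace Pool.Agent.Lib.MP_8a71fe_gt

/-- Complex conjugation on the link. -/
noncomputable def cjLink {ι : Type} [Fintype ι] (s : ι → ι) (a : ι → ℝ) (x : link s a) :
    link s a :=
  ⟨cj x.1, by
    have hx : bil s a x.1 x.1 = (0, 1) := x.2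
    change bil s a (cj x.1) (cj x.1) = (0, 1)
    rw [bil_cj, hx]
    simp⟩

theorem exists_two_orbits {ι : Type} [Fintype ι] [DecidableEq ι] {p q r : ι} (hpq : p ≠ q)
    (hrp : r ≠ p) (hrq : r ≠ q) (m : ℕ) (hm : 2 * Fintype.card ι = m + 3) :
    ExistsRealContact (EuclideanSpace ℝ (Fin m)) 2 := by
  have hε : Irrational (√2 - 1) := by
    simpa using irrational_sqrt_two.sub_natCast 1
  have hε0 : 0 ≤ √2 - 1 := by
    have : 1 ≤ √2 := Real.one_le_sqrt.mpr (by norm_num)
    linarith
  have hε1 : √2 - 1 ≤ 1 / 2 := by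
    have : √2 ≤ 3 / 2 := Real.sqrt_le_iff.mpr ⟨by norm_num, by norm_num⟩
    linarith
  set ε := √2 - 1 with hεdef
  set a : ι → ℝ := wt ε p q with ha
  set s : ι → ι := ⇑(Equiv.swap p q) with hs
  have hsinv : Involutive s := fun i => Equiv.swap_apply_self p q i
  have hadd : ∀ i, a i + a (s i) = 2 := wt_add ε hpq
  have hhalf : ∀ i, 1 / 2 ≤ a i := half_le_wt hε0 hε1 p q
  have hpos : ∀ i, 0 < a i := fun i => by linarith [hhalf i]
  have hfd : ∀ w, fderiv ℝ (defMap s a) w = (2 : ℝ) • bil s a w := fun w =>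
    (hasFDerivAt_defMap hsinv a w).fderiv
  obtain ⟨cs, hM, hval, hL⟩ := exists_levelSet_manifold (defMap s a) (contDiff_defMap s a)
    (link s a) (mem_link_iff s a) (by
      intro x hx z
      obtain ⟨u, hu⟩ := bil_surjective hsinv a hx ((2 : ℝ)⁻¹ • z)
      refine ⟨u, ?_⟩
      rw [hfd, smul_apply, hu, smul_smul]
      simp) m (by
      simp only [Module.finrank_pi_fintype, Complex.finrank_real_complex, Finset.sum_const,
        Finset.card_univ, smul_eq_mul, Module.finrank_prod, Module.finrank_self]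
      omega)
  choose L hL1 hL2 using hL
  have hL' : ∀ x : link s a, ∃ L : (ι → ℂ) →L[ℝ] EuclideanSpace ℝ (Fin m),
      ∀ y : link s a, extChartAt (𝓡 m) x y = L (y : ι → ℂ) := fun x => ⟨L x, hL1 x⟩
  have hlink : ∀ x : link s a, bil s a x.1 x.1 = (0, 1) := fun x => x.2
  -- the tangent space is the kernel
  have htan : ∀ (x : link s a) (v : TangentSpace (𝓡 m) x),
      bil s a x.1 (dmap m Subtype.val x v) = 0 := by
    intro x v
    have := fderiv_dmap_eq_zero hval x (hasFDerivAt_defMap hsinv a x.1)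
      (fun y => (mem_link_iff s a y.1).mp y.2) v
    rw [smul_apply] at this
    exact (smul_eq_zero.mp this).resolve_left (by norm_num)
  have hsurj : ∀ (x : link s a) (u : ι → ℂ), bil s a x.1 u = 0 →
      dmap m Subtype.val x (L x u) = u := by
    intro x u hu
    rw [← sub_eq_zero]
    apply hL2 x
    · rw [hfd, smul_apply, map_sub, htan x (L x u), hu]
      simp
    · rw [map_sub, linear_dmap hval x (hL1 x) (L x u)]
      exact sub_self _
  have hinj : ∀ (x : link s a) (v : TangentSpace (𝓡 m) x), dmap m Subtype.val x v = 0 →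
      v = 0 := by
    intro x v hv
    rw [← linear_dmap hval x (hL1 x) v, hv, map_zero]
    rfl
  let α : (x : link s a) → TangentSpace (𝓡 m) x →L[ℝ] ℝ := pullForm m liou Subtype.val
  let R : (x : link s a) → TangentSpace (𝓡 m) x := fun x => L x (rot a x.1)
  have hR : ∀ x, dmap m Subtype.val x (R x) = rot a x.1 := fun x =>
    hsurj x _ (bil_rot hsinv hadd (by rw [hlink]))
  have hα : ∀ x v, α x v = liou x.1 (dmap m Subtype.val x v) := fun x v => rfl
  have hdα : ∀ x v w, extD α x v w =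
      2 * liou (dmap m Subtype.val x v) (dmap m Subtype.val x w) := by
    intro x v w
    rw [extD_pullForm liou hval, liou_antisymm (dmap m Subtype.val x w)]
    ring
  have hαR : ∀ x, α x (R x) = 1 := by
    intro x
    rw [hα, hR, liou_antisymm, liou_rot_left s, hlink]
    simp
  let ρ := cjLink s a
  have hρval : Subtype.val ∘ ρ = cj ∘ Subtype.val := rfl
  have hρ : ContMDiff (𝓡 m) (𝓡 m) ∞ ρ := by
    apply contMDiff_of_comp hL'
    · exact (cj.continuous.comp continuous_subtype_val).subtype_mk _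
    · rw [hρval]
      exact cj.contMDiff.comp hval
  have hρfix : ∀ x, ρ x = x ↔ cj x.1 = x.1 := fun x => Subtype.ext_iff
  -- images of chords
  have himage : ∀ (c : ℝ → link s a) (T : ℝ), IsReebChord R ρ c T → ∀ j, s j ≠ j →
      (∀ i ≠ j, (c 0).1 i = 0) →
      doubledChord ρ c T '' Icc 0 (2 * T) = Subtype.val ⁻¹' circ a j := by
    rintro c T ⟨hT, hc, h0, h1⟩ j hj hsupp
    have hflow := eq_flow_of_ode a (γ := Subtype.val ∘ c) (T := T) (fun t ht => by
      have := hasDerivWithinAt_of_curve hval (hc t ht)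
      rwa [hR] at this)
    simp only [comp_apply] at hflow
    rw [hρfix] at h0 h1
    rw [hflow T ⟨hT.le, le_rfl⟩] at h1
    have hw : (c 0).1 ∈ circ a j := (mem_link_iff_of_support hj hsupp).mp (c 0).2
    have hd : ∀ t ∈ Icc 0 (2 * T), (doubledChord ρ c T t).1 = flow a t (c 0).1 := by
      intro t ht
      unfold doubledChord
      split_ifs with h
      · exact hflow t ⟨ht.1, h⟩
      · change cj (c (2 * T - t)).1 = _
        rw [hflow _ ⟨by linarith [ht.2], by linarith⟩]
        exact cj_flow_reflect hw h0 h1 t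
    rw [← image_flow_eq_circ (hpos j) hw h0 hT h1]
    ext y
    simp only [mem_image, mem_preimage]
    constructor
    · rintro ⟨t, ht, rfl⟩
      exact ⟨t, ht, (hd t ht).symm⟩
    · rintro ⟨t, ht, hy⟩
      exact ⟨t, ht, Subtype.ext ((hd t ht).trans hy)⟩
  have hexists : ∀ j, s j ≠ j → ∃ (c : ℝ → link s a) (T : ℝ), IsReebChord R ρ c T ∧
      ∀ i ≠ j, (c 0).1 i = 0 := by
    intro j hj
    obtain ⟨w, hw, h0, T, hT, h1⟩ := exists_chord (a := a) (hpos j)
    let c : ℝ → link s a := fun t => ⟨flow a t w,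
      (mem_link_iff_of_support hj (flow_mem_circ hw t).1).mpr (flow_mem_circ hw t)⟩
    have hc0 : (c 0).1 = w := by
      ext i
      simp [c, flow]
    have hcont : Continuous c := by
      apply Continuous.subtype_mk
      exact continuous_iff_continuousAt.mpr fun t => (hasDerivAt_flow a w t).continuousAt
    refine ⟨c, T, ⟨hT, ?_, ?_, ?_⟩, ?_⟩
    · intro t _
      apply curve_of_hasDerivWithinAt hval hL' hcont.continuousWithinAt
      rw [hR]
      exact (hasDerivAt_flow a w t).hasDerivWithinAt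
    · rw [hρfix, hc0, h0]
    · rw [hρfix]
      exact h1
    · rw [hc0]
      exact hw.1
  have hsm := contMDiff_pullForm (liou (ι := ι)) hval
  have hsp : s p ≠ p := by simp [hs, hpq.symm]
  have hsq : s q ≠ q := by simp [hs, hpq]
  refine ⟨link s a, inferInstance, cs, hM, inferInstance,
    isCompact_iff_compactSpace.mp (isCompact_link s hhalf),
    isConnected_iff_connectedSpace.mp (isConnected_link hpq hrp hrq hpos), α, R, ρ,
    ⟨hsm, fun x => ⟨?_, ?_⟩⟩, fun x => ⟨hαR x, ?_⟩, ⟨hρ, ?_, ?_⟩, ?_, ?_⟩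
  · refine ⟨R x, ?_⟩
    change α x (R x) ≠ 0
    rw [hαR]
    exact one_ne_zero
  · intro v hv hw
    apply hinj x v
    apply liou_nondegenerate hsinv hadd (hlink x) (htan x v) hv
    intro u hu hu'
    have := hw (L x u) (by
      change liou x.1 (dmap m Subtype.val x (L x u)) = 0
      rw [hsurj x u hu, hu'])
    rw [hdα, hsurj x u hu] at this
    linarith
  · intro w
    rw [hdα, hR, liou_rot_left s, htan]
    simp
  · intro x
    apply Subtype.ext
    ext i
    simp [ρ, cjLink]
  · intro x v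
    unfold evalForm
    rw [hα, hα, dmap_comp hval hρ, hρval, comp_dmap_eq hval x cj.hasFDerivAt]
    exact liou_cj _ _
  · obtain ⟨c, T, hc, _⟩ := hexists p hsp
    exact ⟨c 0, hc.2.2.1⟩
  · have hset : symmetricOrbits R ρ =
        {Subtype.val ⁻¹' circ a p, Subtype.val ⁻¹' circ a q} := by
      ext S
      simp only [symmetricOrbits, mem_ofPred_eq, mem_insert_iff, mem_singleton_iff]
      constructor
      · rintro ⟨c, T, hc, rfl⟩
        have hflow := eq_flow_of_ode a (γ := Subtype.val ∘ c) (T := T) (fun t ht => by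
          have := hasDerivWithinAt_of_curve hval (hc.2.1 t ht)
          rwa [hR] at this) T ⟨hc.1.le, le_rfl⟩
        simp only [comp_apply] at hflow
        have h1 := (hρfix _).mp hc.2.2.2
        rw [hflow] at h1
        rcases support_of_chord hε hpq (c 0).2 ((hρfix _).mp hc.2.2.1) hc.1 h1 with h | h
        · exact Or.inl (himage c T hc p hsp h)
        · exact Or.inr (himage c T hc q hsq h)
      · rintro (rfl | rfl)
        · obtain ⟨c, T, hc, h⟩ := hexists p hsp
          exact ⟨c, T, hc, (himage c T hc p hsp h).symm⟩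
        · obtain ⟨c, T, hc, h⟩ := hexists q hsq
          exact ⟨c, T, hc, (himage c T hc q hsq h).symm⟩
    rw [hset]
    apply encard_pair
    intro h
    obtain ⟨c, T, hc, h0⟩ := hexists p hsp
    have h1 : (c 0).1 ∈ circ a p := (mem_link_iff_of_support hsp h0).mp (c 0).2
    have h2 : c 0 ∈ (Subtype.val ⁻¹' circ a q : Set (link s a)) := h ▸ h1
    exact ne_zero_of_mem_circ h1 (h2.1 p hpq)

end Pool.Agent.Lib.MP_8a71fe_gt
end
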