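import Mathlib
import Pool.Agent.Lib.MP_8a71fe_gt.Defs
import Pool.Agent.Lib.MP_8a71fe_gt.Main

/-!
The link of a quadric cone whose real form has two hyperbolic planes: the fixed Legendrian of
complex conjugation is connected, and the symmetric periodic Reeb orbits are the coordinate
circles of the hyperbolic planes.
-/

namespace Pool.Agent.Lib.MP_8a71fe_gt

section cones

open scoped ComplexConjugate Topology
open Set Function Complex

variable {ι : Type} [Fintype ι] [DecidableEq ι]

/-- The punctured quadric cone with all coordinates in `A`. -/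
def coneIn (s : ι → ι) (A : Set ℂ) : Set (ι → ℂ) :=
  {w | ∑ i, w (s i) * w i = 0 ∧ w ≠ 0 ∧ ∀ i, w i ∈ A}

lemma quadric_eq' {s : ι → ι} (hs : Involutive s) {p : ι} (hp : s p ≠ p) (w : ι → ℂ) :
    ∑ i, w (s i) * w i =
      2 * w p * w (s p) + ∑ i ∈ (Finset.univ.erase p).erase (s p), w (s i) * w i := by
  rw [← Finset.add_sum_erase _ _ (Finset.mem_univ p),
    ← Finset.add_sum_erase _ _ (Finset.mem_erase.mpr ⟨hp, Finset.mem_univ (s p)⟩), hs p]
  ring

lemma joinedIn_single {s : ι → ι} (hs : Involutive s) {A : Set ℂ}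
    (hA : ∀ (t : ℝ) (z : ℂ), z ∈ A → (t : ℂ) * z ∈ A) {p : ι} (hsp : s p ≠ p) {w : ι → ℂ}
    (hw : w ∈ coneIn s A) (hp : w p ≠ 0) : JoinedIn (coneIn s A) (Pi.single p (w p)) w := by
  apply JoinedIn.ofLine (f := fun t : ℝ => fun i =>
    (((if i = p then 1 else if i = s p then t ^ 2 else t : ℝ)) : ℂ) * w i)
  · apply Continuous.continuousOn
    apply continuous_pi
    intro i
    split_ifs <;> fun_prop
  · ext i
    by_cases h : i = p
    · simp [h]
    · simp [h]
  · ext i
    simp
  · rintro _ ⟨t, _, rfl⟩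
    refine ⟨?_, fun h => hp (by simpa using congrFun h p), fun i => hA _ _ (hw.2.2 i)⟩
    have h0 := hw.1
    rw [quadric_eq' hs hsp] at h0
    refine (quadric_eq' hs hsp (fun i =>
      (((if i = p then 1 else if i = s p then t ^ 2 else t : ℝ)) : ℂ) * w i)).trans ?_
    have : ∑ i ∈ (Finset.univ.erase p).erase (s p),
        (((if s i = p then 1 else if s i = s p then t ^ 2 else t : ℝ) : ℂ) * w (s i)) *
          (((if i = p then 1 else if i = s p then t ^ 2 else t : ℝ) : ℂ) * w i) =
        (t : ℂ) ^ 2 * ∑ i ∈ (Finset.univ.erase p).erase (s p), w (s i) * w i := by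
      rw [Finset.mul_sum]
      apply Finset.sum_congr rfl
      intro i hi
      simp only [Finset.mem_erase] at hi
      have h1 : s i ≠ p := fun h => hi.1 (by rw [← h, hs i])
      have h2 : s i ≠ s p := fun h => hi.2.1 (hs.injective h)
      rw [if_neg h1, if_neg h2, if_neg hi.2.1, if_neg hi.1]
      ring
    rw [this]
    simp only [if_true, hsp, if_false]
    push_cast
    linear_combination (t : ℂ) ^ 2 * h0

lemma joinedIn_base {s : ι → ι} (hs : Involutive s) {A : Set ℂ} (h1A : (1 : ℂ) ∈ A)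
    (hA : ∀ (t : ℝ) (z : ℂ), z ∈ A → (t : ℂ) * z ∈ A) {p r : ι} (hsp : s p ≠ p) (hsr : s r ≠ r)
    (hrp : r ≠ p) (hrs : r ≠ s p) {w : ι → ℂ} (hw : w ∈ coneIn s A) (hp : w p ≠ 0) :
    JoinedIn (coneIn s A) (Pi.single r 1) w := by
  have h0A : (0 : ℂ) ∈ A := by simpa using hA 0 1 h1A
  let u : ι → ℂ := fun i => if i = p then w p else if i = r then 1 else 0
  have hup : u p = w p := by simp [u]
  have hur : u r = 1 := by simp [u, hrp]
  have hu : u ∈ coneIn s A := by
    refine ⟨?_, fun h => hp (by rw [← hup, h]; rfl), fun i => ?_⟩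
    · apply Finset.sum_eq_zero
      intro i _
      by_cases h1 : i = p
      · have : u (s p) = 0 := by simp [u, hsp, hrs.symm]
        rw [h1, this, zero_mul]
      · by_cases h2 : i = r
        · have h3 : s r ≠ p := fun h => hrs (by rw [← h, hs r])
          have : u (s r) = 0 := by simp [u, h3, hsr]
          rw [h2, this, zero_mul]
        · have : u i = 0 := by simp [u, h1, h2]
          rw [this, mul_zero]
    · simp only [u]
      split_ifs
      · exact hw.2.2 p
      · exact h1A
      · exact h0A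
  have j1 := joinedIn_single hs hA hsp hw hp
  have j2 := joinedIn_single hs hA hsp hu (hup ▸ hp)
  have j3 := joinedIn_single hs hA hsr hu (hur ▸ one_ne_zero)
  rw [hup] at j2
  rw [hur] at j3
  exact (j3.trans j2.symm).trans j1

lemma isPathConnected_coneIn {s : ι → ι} (hs : Involutive s) {A : Set ℂ} (h1A : (1 : ℂ) ∈ A)
    (hA : ∀ (t : ℝ) (z : ℂ), z ∈ A → (t : ℂ) * z ∈ A) {p r : ι} (hsp : s p ≠ p) (hsr : s r ≠ r)
    (hrp : r ≠ p) (hrs : r ≠ s p) : IsPathConnected (coneIn s A) := by
  have h0A : (0 : ℂ) ∈ A := by simpa using hA 0 1 h1A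
  have hbase : (Pi.single r 1 : ι → ℂ) ∈ coneIn s A := by
    refine ⟨?_, fun h => by simpa using congrFun h r, fun i => ?_⟩
    · apply Finset.sum_eq_zero
      intro i _
      by_cases h : i = r
      · simp [h, hsr]
      · simp [h]
    · by_cases h : i = r
      · simpa [h] using h1A
      · simpa [h] using h0A
  refine ⟨Pi.single r 1, hbase, fun w hw => ?_⟩
  by_cases hp : w p = 0
  · by_cases hq : w (s p) = 0
    · have h1 : ∀ t : ℝ, w + (t : ℂ) • (Pi.single p 1 : ι → ℂ) ∈ coneIn s A := by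
        intro t
        refine ⟨?_, ?_, fun i => ?_⟩
        · have h0 := hw.1
          rw [quadric_eq' hs hsp] at h0 ⊢
          have : ∑ i ∈ (Finset.univ.erase p).erase (s p),
              (w + (t : ℂ) • (Pi.single p 1 : ι → ℂ)) (s i) *
                (w + (t : ℂ) • (Pi.single p 1 : ι → ℂ)) i =
              ∑ i ∈ (Finset.univ.erase p).erase (s p), w (s i) * w i := by
            apply Finset.sum_congr rfl
            intro i hi
            simp only [Finset.mem_erase] at hi
            have h1 : s i ≠ p := fun h => hi.1 (by rw [← h, hs i])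
            simp [hi.2.1, h1]
          rw [this]
          simpa [hq, hsp] using h0
        · intro h
          apply hw.2.1
          ext i
          by_cases hi : i = p
          · rw [hi, hp]; rfl
          · simpa [hi] using congrFun h i
        · by_cases hi : i = p
          · simpa [hi, hp] using hA t 1 h1A
          · simpa [hi] using hw.2.2 i
      have h2 : JoinedIn (coneIn s A) w (w + ((1 : ℝ) : ℂ) • (Pi.single p 1 : ι → ℂ)) := by
        apply JoinedIn.ofLine (f := fun t : ℝ => w + (t : ℂ) • (Pi.single p 1 : ι → ℂ))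
        · fun_prop
        · simp
        · rfl
        · rintro _ ⟨t, _, rfl⟩
          exact h1 t
      exact (joinedIn_base hs h1A hA hsp hsr hrp hrs (h1 1) (by simp [hp])).trans h2.symm
    · exact joinedIn_base hs h1A hA (p := s p) (by rw [hs p]; exact hsp.symm) hsr hrs
        (by rw [hs p]; exact hrp) hw hq
  · exact joinedIn_base hs h1A hA hsp hsr hrp hrs hw hp

lemma isConnected_linkIn {s : ι → ι} (hs : Involutive s) {A : Set ℂ} (h1A : (1 : ℂ) ∈ A)
    (hA : ∀ (t : ℝ) (z : ℂ), z ∈ A → (t : ℂ) * z ∈ A) {p r : ι} (hsp : s p ≠ p) (hsr : s r ≠ r)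
    (hrp : r ≠ p) (hrs : r ≠ s p) {a : ι → ℝ} (ha : ∀ i, 0 < a i) :
    IsConnected (link s a ∩ {w | ∀ i, w i ∈ A}) := by
  have hpos : ∀ w : ι → ℂ, w ≠ 0 → 0 < (bil s a w w).2 := by
    intro w hw
    rw [bil_self_snd]
    obtain ⟨i, hi⟩ := Function.ne_iff.mp hw
    exact Finset.sum_pos' (fun j _ => mul_nonneg (ha j).le (normSq_nonneg _))
      ⟨i, Finset.mem_univ i, mul_pos (ha i) (normSq_pos.mpr hi)⟩
  have h1 := (isPathConnected_coneIn hs h1A hA hsp hsr hrp hrs).isConnected.image
    (fun w => (√(bil s a w w).2)⁻¹ • w) (by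
      refine ContinuousOn.smul (f := fun w => (√(bil s a w w).2)⁻¹) (g := fun w => w) ?_
        continuousOn_id
      apply ContinuousOn.inv₀ (by fun_prop)
      intro w hw
      exact (Real.sqrt_pos.mpr (hpos w hw.2.1)).ne')
  have h2 : link s a ∩ {w | ∀ i, w i ∈ A} =
      (fun w => (√(bil s a w w).2)⁻¹ • w) '' coneIn s A := by
    ext w
    constructor
    · intro hw
      have hw' : bil s a w w = (0, 1) := hw.1
      refine ⟨w, ⟨congrArg Prod.fst hw', ?_, hw.2⟩, by simp [hw']⟩
      rintro rfl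
      simpa using congrArg Prod.snd hw'
    · rintro ⟨u, hu, rfl⟩
      have h0 := hpos u hu.2.1
      have h2 : (bil s a u u).1 = 0 := hu.1
      refine ⟨?_, fun i => hA _ _ (hu.2.2 i)⟩
      simp only [link, mem_ofPred_eq, map_smul, smul_apply]
      ext
      · simp [h2]
      · simp only [Prod.smul_snd, smul_eq_mul]
        have h3 := Real.mul_self_sqrt h0.le
        have h4 := (Real.sqrt_pos.mpr h0).ne'
        field_simp
        rw [pow_two, h3]
  rw [h2]
  exact h1

omit [Fintype ι] [DecidableEq ι] in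
lemma int_eq_of_sin {θ : ℝ} (hθ : Irrational θ) {b c : ℤ} {T : ℝ} (hT : 0 < T)
    (hb0 : 0 < 1 + (b : ℝ) * θ) (hb : Real.sin ((1 + b * θ) * T) = 0)
    (hc : Real.sin ((1 + c * θ) * T) = 0) : b = c := by
  obtain ⟨k, hk⟩ := Real.sin_eq_zero_iff.mp hb
  obtain ⟨l, hl⟩ := Real.sin_eq_zero_iff.mp hc
  have hk0 : (k : ℝ) ≠ 0 := by
    intro h
    rw [h, zero_mul] at hk
    exact (mul_pos hb0 hT).ne hk
  have h1 : (l : ℝ) * (1 + b * θ) = k * (1 + c * θ) := by
    apply mul_right_cancel₀ hT.ne'
    linear_combination k * hl - l * hk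
  have h2 : (k * c - l * b : ℤ) = 0 := by
    by_contra hne
    have hne' : ((k * c - l * b : ℤ) : ℝ) ≠ 0 := by exact_mod_cast hne
    apply hθ
    refine ⟨((l - k : ℤ) : ℚ) / ((k * c - l * b : ℤ) : ℚ), ?_⟩
    push_cast at hne' ⊢
    rw [div_eq_iff hne']
    linear_combination h1
  have h3 : (k : ℝ) * c - l * b = 0 := by exact_mod_cast h2
  have h4 : (l : ℝ) = k := by linear_combination h1 + θ * h3
  rw [h4] at h3
  have h5 : (b : ℝ) = c := by
    apply mul_left_cancel₀ hk0
    linear_combination -h3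
  exact_mod_cast h5

omit [DecidableEq ι] in
lemma support_of_chord' {θ : ℝ} (hθ : Irrational θ) {s : ι → ι} {β : ι → ℤ}
    (hinj : ∀ i j, s j ≠ j → β i = β j → i = j) (hpos : ∀ i, 0 < 1 + (β i : ℝ) * θ)
    {w : ι → ℂ} (hw : w ∈ link s fun i => 1 + (β i : ℝ) * θ) (h0 : cj w = w) {T : ℝ}
    (hT : 0 < T) (h1 : cj (flow (fun i => 1 + (β i : ℝ) * θ) T w) =
      flow (fun i => 1 + (β i : ℝ) * θ) T w) :
    ∃ j, s j ≠ j ∧ ∀ i ≠ j, w i = 0 := by
  have hq : ∑ i, w (s i) * w i = 0 := congrArg Prod.fst hw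
  have hsin : ∀ i, w i ≠ 0 → Real.sin ((1 + (β i : ℝ) * θ) * T) = 0 := fun i hi =>
    sin_eq_zero_of_real hi (congrFun h0 i) (congrFun h1 i)
  by_cases hex : ∃ j, s j ≠ j ∧ w j ≠ 0
  · obtain ⟨j, hj, hwj⟩ := hex
    refine ⟨j, hj, fun i hij => ?_⟩
    by_contra hwi
    exact hij (hinj i j hj (int_eq_of_sin hθ hT (hpos i) (hsin i hwi) (hsin j hwj)))
  · exfalso
    push Not at hex
    have h2 : ∑ i, (w i).re ^ 2 = 0 := by
      have := congrArg Complex.re hq
      rw [re_sum] at this
      rw [← zero_re, ← this]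
      apply Finset.sum_congr rfl
      intro i _
      have him : (w i).im = 0 := conj_eq_iff_im.mp (congrFun h0 i)
      by_cases hi : s i = i
      · simp [hi, pow_two, him]
      · simp [hex i hi]
    rw [Finset.sum_eq_zero_iff_of_nonneg (fun i _ => sq_nonneg _)] at h2
    have h3 : w = 0 := by
      ext i
      exact Complex.ext (by simpa using h2 i (Finset.mem_univ i))
        (conj_eq_iff_im.mp (congrFun h0 i))
    have hw' : bil s (fun i => 1 + (β i : ℝ) * θ) w w = (0, 1) := hw
    rw [h3] at hw'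
    simpa using congrArg Prod.snd hw'

end cones

open scoped Manifold ContDiff Topology
open Set Function

theorem exists_connected_fix {ι : Type} [Fintype ι] [DecidableEq ι] {s : ι → ι}
    (hsinv : Involutive s) {β : ι → ℤ} (hβ : ∀ i, β (s i) = -β i) (hb : ∀ i, -2 ≤ β i)
    (hbinj : ∀ i j, s j ≠ j → β i = β j → i = j) {p r : ι} (hsp : s p ≠ p) (hsr : s r ≠ r)
    (hrp : r ≠ p) (hrs : r ≠ s p) (m : ℕ) (hm : 2 * Fintype.card ι = m + 3) :
    ∃ (M : Type) (_ : TopologicalSpace M) (_ : ChartedSpace (EuclideanSpace ℝ (Fin m)) M)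
      (_ : IsManifold 𝓘(ℝ, EuclideanSpace ℝ (Fin m)) ∞ M)
      (_ : T2Space M) (_ : CompactSpace M) (_ : ConnectedSpace M)
      (α : OneForm (EuclideanSpace ℝ (Fin m)) M)
      (R : (x : M) → TangentSpace 𝓘(ℝ, EuclideanSpace ℝ (Fin m)) x) (ρ : M → M),
      IsContactForm α ∧ IsReebField α R ∧ IsAntiContactInvolution α ρ ∧
        IsConnected {x | ρ x = x} ∧ (symmetricOrbits R ρ).encard = {j | s j ≠ j}.encard := by
  have hθ : Irrational (√2 / 8) := by
    simpa using irrational_sqrt_two.div_natCast (m := 8) (by norm_num)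
  have hθ0 : 0 ≤ √2 / 8 := by positivity
  have hθ1 : √2 / 8 ≤ 1 / 4 := by
    have : √2 ≤ 3 / 2 := Real.sqrt_le_iff.mpr ⟨by norm_num, by norm_num⟩
    linarith
  set θ := √2 / 8 with hθdef
  set a : ι → ℝ := fun i => 1 + (β i : ℝ) * θ with ha
  have hadd : ∀ i, a i + a (s i) = 2 := fun i => by
    simp only [ha, hβ i]
    push_cast
    ring
  have hhalf : ∀ i, 1 / 2 ≤ a i := fun i => by
    have h1 : (-2 : ℝ) ≤ β i := by exact_mod_cast hb i
    simp only [ha]
    nlinarith
  have hpos : ∀ i, 0 < a i := fun i => by linarith [hhalf i]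
  have hfd : ∀ w, fderiv ℝ (defMap s a) w = (2 : ℝ) • bil s a w := fun w =>
    (hasFDerivAt_defMap hsinv a w).fderiv
  obtain ⟨cs, hM, hval, hL⟩ := exists_levelSet_manifold (defMap s a) (contDiff_defMap s a)
    (link s a) (mem_link_iff s a) (by
      intro x hx z
      obtain ⟨u, hu⟩ := bil_surjective hsinv a hx ((2 : ℝ)⁻¹ • z)
      refine ⟨u, ?_⟩
      rw [hfd, smul_apply, hu, smul_smul]
      simp) m (by
      simp only [Module.finrank_pi_fintype, Complex.finrank_real_complex, Finset.sum_const,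
        Finset.card_univ, smul_eq_mul, Module.finrank_prod, Module.finrank_self]
      omega)
  choose L hL1 hL2 using hL
  have hL' : ∀ x : link s a, ∃ L : (ι → ℂ) →L[ℝ] EuclideanSpace ℝ (Fin m),
      ∀ y : link s a, extChartAt (𝓡 m) x y = L (y : ι → ℂ) := fun x => ⟨L x, hL1 x⟩
  have hlink : ∀ x : link s a, bil s a x.1 x.1 = (0, 1) := fun x => x.2
  -- the tangent space is the kernel
  have htan : ∀ (x : link s a) (v : TangentSpace (𝓡 m) x),
      bil s a x.1 (dmap m Subtype.val x v) = 0 := by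
    intro x v
    have := fderiv_dmap_eq_zero hval x (hasFDerivAt_defMap hsinv a x.1)
      (fun y => (mem_link_iff s a y.1).mp y.2) v
    rw [smul_apply] at this
    exact (smul_eq_zero.mp this).resolve_left (by norm_num)
  have hsurj : ∀ (x : link s a) (u : ι → ℂ), bil s a x.1 u = 0 →
      dmap m Subtype.val x (L x u) = u := by
    intro x u hu
    rw [← sub_eq_zero]
    apply hL2 x
    · rw [hfd, smul_apply, map_sub, htan x (L x u), hu]
      simp
    · rw [map_sub, linear_dmap hval x (hL1 x) (L x u)]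
      exact sub_self _
  have hinj : ∀ (x : link s a) (v : TangentSpace (𝓡 m) x), dmap m Subtype.val x v = 0 →
      v = 0 := by
    intro x v hv
    rw [← linear_dmap hval x (hL1 x) v, hv, map_zero]
    rfl
  let α : (x : link s a) → TangentSpace (𝓡 m) x →L[ℝ] ℝ := pullForm m liou Subtype.val
  let R : (x : link s a) → TangentSpace (𝓡 m) x := fun x => L x (rot a x.1)
  have hR : ∀ x, dmap m Subtype.val x (R x) = rot a x.1 := fun x =>
    hsurj x _ (bil_rot hsinv hadd (by rw [hlink]))
  have hα : ∀ x v, α x v = liou x.1 (dmap m Subtype.val x v) := fun x v => rfl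
  have hdα : ∀ x v w, extD α x v w =
      2 * liou (dmap m Subtype.val x v) (dmap m Subtype.val x w) := by
    intro x v w
    rw [extD_pullForm liou hval, liou_antisymm (dmap m Subtype.val x w)]
    ring
  have hαR : ∀ x, α x (R x) = 1 := by
    intro x
    rw [hα, hR, liou_antisymm, liou_rot_left s, hlink]
    simp
  let ρ := cjLink s a
  have hρval : Subtype.val ∘ ρ = cj ∘ Subtype.val := rfl
  have hρ : ContMDiff (𝓡 m) (𝓡 m) ∞ ρ := by
    apply contMDiff_of_comp hL'
    · exact (cj.continuous.comp continuous_subtype_val).subtype_mk _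
    · rw [hρval]
      exact cj.contMDiff.comp hval
  have hρfix : ∀ x, ρ x = x ↔ cj x.1 = x.1 := fun x => Subtype.ext_iff
  -- images of chords
  have himage : ∀ (c : ℝ → link s a) (T : ℝ), IsReebChord R ρ c T → ∀ j, s j ≠ j →
      (∀ i ≠ j, (c 0).1 i = 0) →
      doubledChord ρ c T '' Icc 0 (2 * T) = Subtype.val ⁻¹' circ a j := by
    rintro c T ⟨hT, hc, h0, h1⟩ j hj hsupp
    have hflow := eq_flow_of_ode a (γ := Subtype.val ∘ c) (T := T) (fun t ht => by
      have := hasDerivWithinAt_of_curve hval (hc t ht)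
      rwa [hR] at this)
    simp only [comp_apply] at hflow
    rw [hρfix] at h0 h1
    rw [hflow T ⟨hT.le, le_rfl⟩] at h1
    have hw : (c 0).1 ∈ circ a j := (mem_link_iff_of_support hj hsupp).mp (c 0).2
    have hd : ∀ t ∈ Icc 0 (2 * T), (doubledChord ρ c T t).1 = flow a t (c 0).1 := by
      intro t ht
      unfold doubledChord
      split_ifs with h
      · exact hflow t ⟨ht.1, h⟩
      · change cj (c (2 * T - t)).1 = _
        rw [hflow _ ⟨by linarith [ht.2], by linarith⟩]
        exact cj_flow_reflect hw h0 h1 t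
    rw [← image_flow_eq_circ (hpos j) hw h0 hT h1]
    ext y
    simp only [mem_image, mem_preimage]
    constructor
    · rintro ⟨t, ht, rfl⟩
      exact ⟨t, ht, (hd t ht).symm⟩
    · rintro ⟨t, ht, hy⟩
      exact ⟨t, ht, Subtype.ext ((hd t ht).trans hy)⟩
  have hexists : ∀ j, s j ≠ j → ∃ (c : ℝ → link s a) (T : ℝ), IsReebChord R ρ c T ∧
      ∀ i ≠ j, (c 0).1 i = 0 := by
    intro j hj
    obtain ⟨w, hw, h0, T, hT, h1⟩ := exists_chord (a := a) (hpos j)
    let c : ℝ → link s a := fun t => ⟨flow a t w,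
      (mem_link_iff_of_support hj (flow_mem_circ hw t).1).mpr (flow_mem_circ hw t)⟩
    have hc0 : (c 0).1 = w := by
      ext i
      simp [c, flow]
    have hcont : Continuous c := by
      apply Continuous.subtype_mk
      exact continuous_iff_continuousAt.mpr fun t => (hasDerivAt_flow a w t).continuousAt
    refine ⟨c, T, ⟨hT, ?_, ?_, ?_⟩, ?_⟩
    · intro t _
      apply curve_of_hasDerivWithinAt hval hL' hcont.continuousWithinAt
      rw [hR]
      exact (hasDerivAt_flow a w t).hasDerivWithinAt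
    · rw [hρfix, hc0, h0]
    · rw [hρfix]
      exact h1
    · rw [hc0]
      exact hw.1
  have hsm := contMDiff_pullForm (liou (ι := ι)) hval
  have hconn : IsConnected (link s a) := by
    have := isConnected_linkIn hsinv (A := univ) (mem_univ _) (fun _ _ _ => mem_univ _) hsp hsr
      hrp hrs hpos
    simpa using this
  refine ⟨link s a, inferInstance, cs, hM, inferInstance,
    isCompact_iff_compactSpace.mp (isCompact_link s hhalf),
    isConnected_iff_connectedSpace.mp hconn, α, R, ρ,
    ⟨hsm, fun x => ⟨?_, ?_⟩⟩, fun x => ⟨hαR x, ?_⟩, ⟨hρ, ?_, ?_⟩, ?_, ?_⟩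
  · refine ⟨R x, ?_⟩
    change α x (R x) ≠ 0
    rw [hαR]
    exact one_ne_zero
  · intro v hv hw
    apply hinj x v
    apply liou_nondegenerate hsinv hadd (hlink x) (htan x v) hv
    intro u hu hu'
    have := hw (L x u) (by
      change liou x.1 (dmap m Subtype.val x (L x u)) = 0
      rw [hsurj x u hu, hu'])
    rw [hdα, hsurj x u hu] at this
    linarith
  · intro w
    rw [hdα, hR, liou_rot_left s, htan]
    simp
  · intro x
    apply Subtype.ext
    ext i
    simp [ρ, cjLink]
  · intro x v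
    unfold evalForm
    rw [hα, hα, dmap_comp hval hρ, hρval, comp_dmap_eq hval x cj.hasFDerivAt]
    exact liou_cj _ _
  · have h1 := isConnected_linkIn hsinv (A := {z : ℂ | z.im = 0}) (by simp)
      (fun t z hz => by simpa using Or.inr hz) hsp hsr hrp hrs hpos
    have h2 : link s a ∩ {w | ∀ i, w i ∈ {z : ℂ | z.im = 0}} =
        Subtype.val '' {x : link s a | ρ x = x} := by
      ext w
      simp only [mem_inter_iff, mem_ofPred_eq, mem_image, hρfix]
      constructor
      · rintro ⟨h3, h4⟩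
        exact ⟨⟨w, h3⟩, funext fun i => Complex.conj_eq_iff_im.mpr (h4 i), rfl⟩
      · rintro ⟨x, hx, rfl⟩
        exact ⟨x.2, fun i => Complex.conj_eq_iff_im.mp (congrFun hx i)⟩
    rw [h2] at h1
    exact ⟨h1.1.of_image, Topology.IsInducing.subtypeVal.isPreconnected_image.mp h1.2⟩
  · have hset : symmetricOrbits R ρ =
        (fun j => (Subtype.val ⁻¹' circ a j : Set (link s a))) '' {j | s j ≠ j} := by
      ext S
      simp only [symmetricOrbits, mem_ofPred_eq, mem_image]
      constructor
      · rintro ⟨c, T, hc, rfl⟩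
        have hflow := eq_flow_of_ode a (γ := Subtype.val ∘ c) (T := T) (fun t ht => by
          have := hasDerivWithinAt_of_curve hval (hc.2.1 t ht)
          rwa [hR] at this) T ⟨hc.1.le, le_rfl⟩
        simp only [comp_apply] at hflow
        have h1 := (hρfix _).mp hc.2.2.2
        rw [hflow] at h1
        obtain ⟨j, hj, h⟩ :=
          support_of_chord' hθ hbinj hpos (c 0).2 ((hρfix _).mp hc.2.2.1) hc.1 h1
        exact ⟨j, hj, (himage c T hc j hj h).symm⟩
      · rintro ⟨j, hj, rfl⟩
        obtain ⟨c, T, hc, h⟩ := hexists j hj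
        exact ⟨c, T, hc, (himage c T hc j hj h).symm⟩
    rw [hset]
    apply InjOn.encard_image
    intro j hj k _ h
    by_contra hjk
    obtain ⟨c, T, hc, h0⟩ := hexists j hj
    have h1 : (c 0).1 ∈ circ a j := (mem_link_iff_of_support hj h0).mp (c 0).2
    have h' : (Subtype.val ⁻¹' circ a j : Set (link s a)) = Subtype.val ⁻¹' circ a k := h
    have h2 : c 0 ∈ (Subtype.val ⁻¹' circ a k : Set (link s a)) := h' ▸ h1
    exact ne_zero_of_mem_circ h1 (h2.1 j hjk)

end Pool.Agent.Lib.MP_8a71fe_gt
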